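import Pool.Agent.Lib.MP_8865d3_nt.Ai.Aff
import Pool.Agent.Lib.MP_8865d3_nt.Lr.Core

/-! The inequality over the field of definition of the model. -/

namespace Pool.Agent.Lib.MP_8865d3_nt.Ai

open MvPolynomial Matrix NumberField Height Module Pool.Agent.Lib.MP_651af7_nt Av
open Pool.Agent.Lib.MP_8865d3_nt.Lr
open Bx (lam hK tsp Smooth tsp_eq rank_tan exists_lieBasis)
open Sv (gsum_mv isum_plc)

variable {k L : Type} [Field k] [Field L] [NumberField L] [Algebra k L] [Algebra.IsAlgebraic k L]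
  {ι β γ : Type} [Fintype ι] [Fintype β] [Fintype γ] {N n g b e e' : ℕ}
  {I : Ideal (MvPolynomial (Fin N) k)}

theorem hK_one {A : AV L ι} {r : ℕ} {σ : Fin r → ι → L} (hσ : A.LieBasis σ)
    {I : Ideal (MvPolynomial (Fin N) L)} (hI : ∀ P ∈ I, ∀ d, homogeneousComponent d P ∈ I)
    {φ : ι → MvPolynomial (Fin N) L} {χ : Fin (n + 1) → MvPolynomial (Fin N) L}
    {ψ : Fin N → MvPolynomial (ι ⊕ Fin (n + 1)) L} (h : Bir I A.I φ χ ψ) {x : Fin N → L}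
    {p : ι → L} {y : Fin (n + 1) → L} (g : Good I φ χ ψ x p y) (hy : ∀ j, y j ≠ 0) :
    (fun q : ι × (Fin (r + n + 1) → Fin N) => eval (Sum.elim p y) (wr A σ ψ q.1 q.2)) ≠ 0 ∧
    ∀ β : Fin (r + n + 1) → Fin N → L, LinearIndependent L β → (∀ l, β l ∈ tsp I x) →
      hK x β = logHeight (fun q : ι × (Fin (r + n + 1) → Fin N) =>
        eval (Sum.elim p y) (wr A σ ψ q.1 q.2)) - r * logHeight p - (r + n + 1) * logHeight x := by
  obtain ⟨d, hd⟩ := h.hom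
  obtain ⟨c, hc, e⟩ := g.pt h
  have n₁ : (fun q : Unit × Fin N => eval (Sum.elim p y) (ψ q.2)) ≠ 0 :=
    let ⟨i, hi⟩ := Function.ne_iff.1 g.ψ0
    Function.ne_iff.2 ⟨((), i), hi⟩
  obtain ⟨h1, h2⟩ := hK_eq hσ hI h (Ψ := fun _ : Unit => ψ) (fun _ => hd)
    (fun _ i l => by rw [mul_comm, sub_self]; simp) g hy n₁
  have y0 : y ≠ 0 := Function.ne_iff.2 ⟨0, g.y0⟩
  refine ⟨let ⟨q, hq⟩ := Function.ne_iff.1 h1; Function.ne_iff.2 ⟨(q.1, q.2.2), hq⟩,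
    fun β β1 β2 => ?_⟩
  have h3 : logHeight (fun q : ι × Unit × (Fin (r + n + 1) → Fin N) =>
      eval (Sum.elim p y) (wr A σ ψ q.1 q.2.2)) = _ :=
    logHeight_comp_equiv ((Equiv.refl ι).prodCongr (Equiv.uniqueProd _ Unit))
      fun q : ι × (Fin (r + n + 1) → Fin N) => eval (Sum.elim p y) (wr A σ ψ q.1 q.2)
  have h4 : logHeight (fun q : Unit × Fin N => eval (Sum.elim p y) (ψ q.2)) = _ :=
    logHeight_comp_equiv (Equiv.uniqueProd (Fin N) Unit) fun i => aeval (Sum.elim p y) (ψ i)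
  rw [funext e, logHeight_mul_left hc] at h4
  rw [h2 β β1 β2, gsum_mv g.p0 y0 n₁, gsum_mv g.p0 y0 h1, h3, h4]
  push_cast
  ring

omit [NumberField L] [Fintype β] in
theorem lam_mul (v : AbsoluteValue L ℝ) {D : β → MvPolynomial (Fin N) L}
    (hD : ∀ l, (D l).IsHomogeneous e) {c : L} (hc : c ≠ 0) (x : Fin N → L) :
    lam v D e (fun i => c * x i) = lam v D e x := by
  simp only [lam, eval_mul_of_hom (hD _), iSup_mul_left, mul_pow, map_pow]
  rw [mul_div_mul_left _ _ (pow_pos (v.pos hc) e).ne']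

theorem core (A : AV L ι) (hI : ∀ P ∈ I, ∀ d, homogeneousComponent d P ∈ I)
    (hI' : (I.map (map (algebraMap k L))).IsPrime) (hs : Smooth I g)
    {B : Fin N → Fin (n + 1) → MvPolynomial ι L} (hB : ∀ i j, (B i j).IsHomogeneous b)
    {φ : ι → MvPolynomial (Fin N) L} {χ : Fin (n + 1) → MvPolynomial (Fin N) L}
    (hb : Bir (I.map (map (algebraMap k L))) A.I φ χ fun i => lin (B i))
    {F : β → MvPolynomial (Fin N) k} {G : γ → MvPolynomial (Fin N) k}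
    (hF : ∀ l, (F l).IsHomogeneous e) (hG : ∀ l, (G l).IsHomogeneous e')
    (hF' : Split A.I e fun l => aeval (fun i => lin (B i)) (F l)) (H : HV I g F G) {ε : ℝ}
    (hε : 0 < ε) : Concl (I.map (map (algebraMap k L))) g (fun l => map (algebraMap k L) (F l)) e
      (fun l => map (algebraMap k L) (G l)) e' ε := by
  have hP := pr_prime A.isPrime n
  have hI₁ := Ds.hom_map (K := L) hI
  obtain ⟨Θ, t, t1, t2, t3⟩ := exists_good hb (isWeightedHomogeneous_one _ _)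
    ((Ideal.ne_top_iff_one _).1 hP.ne_top)
  by_cases h0 : ∃ (x : Fin N → L) (p : ι → L) (y : Fin (n + 1) → L),
    Good (I.map (map (algebraMap k L))) φ χ (fun i => lin (B i)) x p y ∧ (∀ j, y j ≠ 0) ∧
      (fun l => eval x (map (algebraMap k L) (F l))) ≠ 0
  swap
  · exact ⟨Θ, t, t1, t2, fun S => ⟨0, fun x x0 xz xΘ xF _ => (h0
      ⟨_, _, _, (t3 x x0 xz xΘ).1, (t3 x x0 xz xΘ).2.1, xF⟩).elim⟩⟩
  obtain ⟨x₀, p₀, y₀, g₀, g₁, g₂⟩ := h0
  obtain ⟨r, σ, hσ⟩ := exists_lieBasis A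
  obtain rfl := Lr.dim_eq hσ hI hs hb g₀
  obtain ⟨a₁, h₁⟩ := hb.hom₁
  obtain ⟨C₁, k₁⟩ := logHeight_eval_le' h₁
  have hε' : 0 < ε / (a₁ + 1) := by positivity
  obtain ⟨Θ₀, s, e1, e2, e3⟩ := aff hσ hI' hB hb
    ((Function.ne_iff.1 (mn_ne (hK_one hσ hI₁ hb g₀ g₁).1)).imp fun u hu h =>
      hu ((Es.mn_map _ _ u).trans (g₀.zp hb _ h))) hF hG H
    ((Function.ne_iff.1 g₂).imp fun l hl h => hl (g₀.zero _ (Ideal.mem_map_of_mem _ h))) hF' hε'
  obtain ⟨Θ, t, t1, t2, t3⟩ := exists_good hb (e1.mul (rename_inl_hom (isHomogeneous_X L A.ao)))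
    fun h => (hP.mem_or_mem h).elim e2 fun h => Am.X_ao_notMem A (inl_mem'.1 h)
  refine ⟨Θ, t, t1, t2, fun S => ?_⟩
  obtain ⟨C, e4⟩ := e3 S
  refine ⟨C + ε / (a₁ + 1) * C₁, fun x x0 xz xΘ xF xG => ?_⟩
  obtain ⟨g, hy, t4⟩ := t3 x x0 xz xΘ
  refine ⟨g.rank hI₁ A.hom hb (by rw [tsp_eq, rank_tan hσ g.p0 (g.zp hb)]), fun β β1 β2 => ?_⟩
  have k₄ := k₁ x
  obtain ⟨n₂, e5⟩ := hK_one hσ hI₁ hb g hy
  obtain ⟨c, hc, e6⟩ := g.pt hb
  have pz := g.zp hb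
  generalize (fun a => eval x (φ a)) = p at *
  obtain ⟨y, hy'⟩ : ∃ y, y = fun j => eval x (χ j) := ⟨_, rfl⟩
  replace hy : ∀ j, y j ≠ 0 := fun j => hy' ▸ hy j
  rw [← hy'] at t4 n₂ e5 e6
  rw [map_mul, mul_ne_zero_iff, ev_inl', eval_X] at t4
  have hc₀ := inv_ne_zero t4.2
  have sc : ∀ {f : MvPolynomial (ι ⊕ Fin (n + 1)) L} {d : ℕ × ℕ},
      f.IsWeightedHomogeneous (bw ι (Fin (n + 1))) d →
      eval (Sum.elim (fun a => (p A.ao)⁻¹ * p a) y) f =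
        (p A.ao)⁻¹ ^ d.1 * eval (Sum.elim p y) f := fun {f d} hf => by
    simpa only [one_mul, one_pow, mul_one, aeval_eq_eval] using
      aeval_mul_of_bih (d := d.1) (e := d.2) hf (p A.ao)⁻¹ 1 p y
  have hc' : (p A.ao)⁻¹ ^ b * c ≠ 0 := mul_ne_zero (pow_ne_zero _ hc₀) hc
  have ne : ∀ {α : Type} {z : α → L} {c : L}, c ≠ 0 → z ≠ 0 → (fun a => c * z a) ≠ 0 :=
    fun hc hz => smul_ne_zero hc hz
  have e7 := e4 (fun a => (p A.ao)⁻¹ * p a) y (fun i => (p A.ao)⁻¹ ^ b * c * x i)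
    ⟨inv_mul_cancel₀ t4.2, zero_mul_of_hom (R := L) A.hom pz _⟩
    (by rw [sc e1]; exact mul_ne_zero (pow_ne_zero _ hc₀) t4.1) hy
    (funext fun i => by rw [sc (lin_hom (hB i)), mul_assoc, ← e6]; rfl) (ne hc' x0)
    (by simpa only [eval_mul_of_hom ((hF _).map _)] using ne (pow_ne_zero e hc') xF)
    (by simpa only [eval_mul_of_hom ((hG _).map _)] using ne (pow_ne_zero e' hc') xG)
    (by simpa only [sc (wr_hom (fun i => lin_hom (hB i)) _ _)] using ne (pow_ne_zero _ hc₀) n₂)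
  simp only [sc (wr_hom (fun i => lin_hom (hB i)) _ _), logHeight_mul_left hc',
    logHeight_mul_left hc₀, logHeight_mul_left (pow_ne_zero _ hc₀), isum_plc,
    lam_mul _ (fun l => (hF l).map _) hc', lam_mul _ (fun l => (hG l).map _) hc'] at e7
  have e8 := mul_le_mul_of_nonneg_left k₄ hε'.le
  have e9 : ε / (a₁ + 1) * (a₁ * logHeight x + logHeight x) = ε * logHeight x := by
    field_simp
  rw [e5 β β1 β2]
  linarith

end Pool.Agent.Lib.MP_8865d3_nt.Ai
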