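import Pool.Agent.Lib.MP_8865d3_nt.Ai.Defs
import Pool.Agent.Lib.MP_8865d3_nt.Lr.Ht
import Pool.Agent.Lib.MP_8865d3_nt.Lr.Key
import Pool.Agent.Lib.MP_8865d3_nt.Lr.Rep
import Pool.Agent.Lib.MP_8865d3_nt.Am.Main

/-! Polynomials on the product as polynomials in the fibre variables. -/

namespace Pool.Agent.Lib.MP_8865d3_nt.Ai

open MvPolynomial Matrix Pool.Agent.Lib.MP_651af7_nt Av Pool.Agent.Lib.MP_8865d3_nt.Lr
open Sv (cur trop_cur_inl mem_map_iff trop_bih)
open En (hat prd rowM)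

noncomputable section

variable {K ι : Type} [Field K] {n q : ℕ}

/-- The inverse of `cur`. -/
def un : MvPolynomial (Fin (n + 1)) (MvPolynomial ι K) →+* MvPolynomial (ι ⊕ Fin (n + 1)) K :=
  eval₂Hom (rename Sum.inl : MvPolynomial ι K →ₐ[K] MvPolynomial (ι ⊕ Fin (n + 1)) K)
    fun j => X (Sum.inr j)

theorem cur_inr (j : Fin (n + 1)) :
    cur (X (.inr j) : MvPolynomial (ι ⊕ Fin (n + 1)) K) = X j := by
  rw [cur, aeval_X, Sum.elim_inr]

theorem cur_un (g : MvPolynomial (Fin (n + 1)) (MvPolynomial ι K)) : cur (un g) = g := by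
  induction g using MvPolynomial.induction_on with
  | C a => rw [un, eval₂Hom_C]; exact trop_cur_inl a
  | add p q hp hq => rw [map_add, map_add, hp, hq]
  | mul_X p a hp => rw [map_mul, map_mul, hp, un, eval₂Hom_X', cur_inr]

theorem cur_lin (u : Fin (n + 1) → MvPolynomial ι K) : cur (lin u) = ∑ j, C (u j) * X j := by
  simp only [lin, map_sum, map_mul, trop_cur_inl, cur_inr]

theorem cur_prd (u : Fin q → Fin (n + 1) → MvPolynomial ι K) (m : Fin q → ℕ) :
    cur (∏ j, lin (u j) ^ m j) = prd u 1 m := by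
  simp only [prd, map_prod, map_pow, cur_lin, map_one, one_mul]

theorem ev_cur (a : ι → K) (t : Fin (n + 1) → K) (f : MvPolynomial (ι ⊕ Fin (n + 1)) K) :
    eval₂ (eval a) t (cur f) = eval (Sum.elim a t) f := by
  induction f using MvPolynomial.induction_on with
  | C c => simp [cur]
  | add p q hp hq => rw [map_add, eval₂_add, hp, hq, map_add]
  | mul_X p s hp =>
    rw [map_mul, eval₂_mul, hp, map_mul, eval_X]
    cases s <;> simp [cur]

theorem ev_lin {R : Type} [CommRing R] [Algebra K R] (a : ι → R) (t : Fin (n + 1) → R)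
    (u : Fin (n + 1) → MvPolynomial ι K) :
    aeval (Sum.elim a t) (lin u) = ∑ j, aeval a (u j) * t j := by
  simp only [lin, map_sum, map_mul, aeval_rename, Sum.elim_comp_inl, aeval_X, Sum.elim_inr]

theorem lin_hom {u : Fin (n + 1) → MvPolynomial ι K} {d : ℕ} (h : ∀ j, (u j).IsHomogeneous d) :
    (lin u).IsWeightedHomogeneous (bw ι (Fin (n + 1))) (d, 1) :=
  IsWeightedHomogeneous.sum _ _ _ fun j _ =>
    (rename_inl_hom (h j)).mul (isWeightedHomogeneous_X K (bw ι (Fin (n + 1))) (.inr j))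

theorem inl_mem' {J : Ideal (MvPolynomial ι K)} {c : MvPolynomial ι K} :
    rename Sum.inl c ∈ pr J n ↔ c ∈ J := by
  rw [pr, mem_map_iff, trop_cur_inl]
  refine ⟨fun h => by simpa using h 0, fun h μ => ?_⟩
  rw [coeff_C]
  split_ifs
  exacts [h, J.zero_mem]

/-- The substitution of `M Y` for `Y`. -/
def sb (M : Matrix (Fin (n + 1)) (Fin (n + 1)) (MvPolynomial ι K)) :
    MvPolynomial (ι ⊕ Fin (n + 1)) K →ₐ[K] MvPolynomial (ι ⊕ Fin (n + 1)) K :=
  aeval (Sum.elim (fun a => X (.inl a)) fun j => lin (M j))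

variable (M N : Matrix (Fin (n + 1)) (Fin (n + 1)) (MvPolynomial ι K))

theorem ev_inl (c : MvPolynomial ι K) :
    aeval (fun a => (X (.inl a) : MvPolynomial (ι ⊕ Fin (n + 1)) K)) c = rename Sum.inl c := by
  rw [rename_eq_aeval]
  rfl

theorem sb_inl (c : MvPolynomial ι K) : sb M (rename Sum.inl c) = rename Sum.inl c := by
  rw [sb, aeval_rename, Sum.elim_comp_inl, ev_inl]

theorem sb_lin (u : Fin (n + 1) → MvPolynomial ι K) : sb M (lin u) = lin (u ᵥ* M) := by
  rw [sb, ev_lin]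
  simp only [ev_inl, lin, Finset.mul_sum, vecMul, dotProduct, map_sum, map_mul, Finset.sum_mul,
    mul_assoc]
  exact Finset.sum_comm

theorem cur_sb (f : MvPolynomial (ι ⊕ Fin (n + 1)) K) :
    cur (sb N.adjugate f) = hat N (cur f) := by
  induction f using MvPolynomial.induction_on with
  | C c =>
    rw [← rename_C (Sum.inl : ι → ι ⊕ Fin (n + 1)), sb_inl, trop_cur_inl, hat, aeval_C,
      algebraMap_eq]
  | add p q hp hq => simp only [map_add, hp, hq, hat]
  | mul_X p s hp =>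
    rw [map_mul, map_mul, hp, map_mul, hat, hat, map_mul]
    congr 1
    rcases s with a | j
    · rw [← rename_X (Sum.inl : ι → ι ⊕ Fin (n + 1)), sb_inl, trop_cur_inl, aeval_C, algebraMap_eq]
    · rw [sb, aeval_X, Sum.elim_inr, cur_lin, cur_inr, aeval_X]

theorem sb_mem {J : Ideal (MvPolynomial ι K)} {f : MvPolynomial (ι ⊕ Fin (n + 1)) K}
    (h : f ∈ pr J n) : sb M f ∈ pr J n := by
  have h1 : pr J n ≤ (pr J n).comap (sb M) := Ideal.map_le_iff_le_comap.2 fun c hc => by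
    rw [Ideal.mem_comap, Ideal.mem_comap, sb_inl]
    exact inl_mem'.2 hc
  exact h1 h

theorem sb_not_mem {J : Ideal (MvPolynomial ι K)} (hJ : J.IsPrime) (hM : M.det ∉ J)
    {f : MvPolynomial (ι ⊕ Fin (n + 1)) K} {d : ℕ × ℕ}
    (hf : f.IsWeightedHomogeneous (bw ι (Fin (n + 1))) d) (h : f ∉ pr J n) :
    sb M f ∉ pr J n := fun h0 => by
  have h1 : (sb M.adjugate).comp (sb M) = aeval (Sum.elim (fun a => 1 * X (.inl a))
      fun j => rename Sum.inl M.det * X (.inr j)) := by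
    ext1 s
    rcases s with a | j
    · simp [sb]
    · have h2 : M j ᵥ* M.adjugate = Pi.single j M.det := by
        funext l
        rw [← mul_apply_eq_vecMul, mul_adjugate]
        simp [one_apply, Pi.single_apply, eq_comm]
      rw [AlgHom.comp_apply, sb.eq_1 M, aeval_X, aeval_X, Sum.elim_inr, Sum.elim_inr, sb_lin, h2, lin,
        Finset.sum_eq_single j (fun l _ hl => by simp [Pi.single_eq_of_ne hl]) (by simp),
        Pi.single_eq_same]
  have h2 := sb_mem M.adjugate h0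
  rw [← AlgHom.comp_apply, h1, aeval_mul_of_bih (d := d.1) (e := d.2) hf, one_pow, one_mul] at h2
  have h3 : (Sum.elim (fun a => X (.inl a)) fun j => X (.inr j) :
      ι ⊕ Fin (n + 1) → MvPolynomial (ι ⊕ Fin (n + 1)) K) = X := by
    funext s
    cases s <;> rfl
  rw [h3, aeval_X_left_apply] at h2
  exact ((pr_prime hJ n).mem_or_mem h2).elim
    (fun h4 => hM (inl_mem'.1 ((pr_prime hJ n).mem_of_pow_mem _ h4))) h

variable [Fintype ι]

theorem cur_hom {f : MvPolynomial (ι ⊕ Fin (n + 1)) K} {d : ℕ × ℕ}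
    (hf : f.IsWeightedHomogeneous (bw ι (Fin (n + 1))) d) : (cur f).IsHomogeneous d.2 :=
  fun μ hμ => by
    rw [← (trop_bih hf μ).2 hμ, Finsupp.weight_eq_sum]
    simp

omit [Fintype ι] in
theorem un_bih {A : AV K ι} {P : MvPolynomial (Fin (n + 1)) (MvPolynomial ι K)}
    (h : As.BiH A P) :
    ∃ e, (un P).IsWeightedHomogeneous (bw ι (Fin (n + 1))) e ∧ un P ∉ pr A.I n := by
  obtain ⟨⟨d, hd⟩, ⟨e, he⟩, μ, hμ⟩ := h
  refine ⟨(e, d), ?_, fun h => hμ (by simpa only [cur_un] using (mem_map_iff _ _).1 h μ)⟩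
  rw [un, coe_eval₂Hom, eval₂_eq']
  refine IsWeightedHomogeneous.sum _ _ _ fun m hm => ?_
  have h1 := (rename_inl_hom (τ := Fin (n + 1)) (he m)).mul (IsWeightedHomogeneous.prod
    Finset.univ _ _ fun j _ => (isWeightedHomogeneous_X K (bw ι (Fin (n + 1))) (.inr j)).pow (m j))
  have h2 : ∑ j, m j = d := by
    rw [← hd (mem_support_iff.1 hm), Finsupp.weight_eq_sum]
    simp
  have h3 : ((e, 0) : ℕ × ℕ) + ∑ j, m j • bw ι (Fin (n + 1)) (.inr j) = (e, d) := by
    ext <;> simp [bw, Prod.fst_sum, Prod.snd_sum, h2]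
  rwa [h3] at h1

end

end Pool.Agent.Lib.MP_8865d3_nt.Ai
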