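import Pool.Agent.Lib.MP_8865d3_nt.Ai.Ifc

/-! The subspace theorem under the criterion for monomial weights. -/

namespace Pool.Agent.Lib.MP_8865d3_nt.Ai

open Finset Matrix MvPolynomial Height NumberField
open Pool.Agent.Lib.MP_651af7_nt Pool.Agent.Lib.MP_8865d3_nt.En Pool.Agent.Lib.MP_8865d3_nt.Am
open Pool.Agent.Lib.MP_8865d3_nt.Lr (pr)
open Av (AV bw nm)
open As (Aff BiH biH_C biH_X biH_prod mainA absA_all)
open Es (mn vol mn_map)
open Ex (lx sup_cmp)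
open Rt (Pl av mu)
open Sv (cur isum plc)

variable {k ι : Type} [Field k]

/- `Θ` is the product of the forms `(u j ᵥ* (rowM u ρ).adjugate) l` that are not in `V.I`; each is
the determinant of `rowM u ρ` with row `l` replaced by `u j` (`cramer_transpose_apply`,
`cramer_eq_adjugate_mulVec`), hence homogeneous (`Bx.minors_hom` or `det_apply'`). -/
theorem vc_pt (V : AV k ι) {r q : ℕ} {u : Fin q → Fin r → MvPolynomial ι k} {d : Fin q → ℕ}
    (hu : ∀ j l, (u j l).IsHomogeneous (d j)) :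
    ∃ (Θ : MvPolynomial ι k) (s : ℕ), Θ.IsHomogeneous s ∧ Θ ∉ V.I ∧ ∀ x : ι → k,
      eval x Θ ≠ 0 → ∀ ρ j l, (u j ᵥ* (rowM u ρ).adjugate) l ∉ V.I →
        eval x ((u j ᵥ* (rowM u ρ).adjugate) l) ≠ 0 := by
  classical
  have hp := V.isPrime
  have h1 : ∀ ρ l, ∃ s, ∀ i, (rowM u ρ l i).IsHomogeneous s := fun ρ l => by
    simp only [rowM, Matrix.of_apply]
    cases ρ l with
    | inl j => exact ⟨_, hu j⟩
    | inr j =>
      refine ⟨0, fun i => ?_⟩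
      rw [Sum.elim_inr, Pi.single_apply]
      split_ifs
      exacts [isHomogeneous_one _ _, isHomogeneous_zero _ _ _]
  have h2 : ∀ z : (Fin r → Fin q ⊕ Fin r) × Fin q × Fin r,
      ∃ s, ((u z.2.1 ᵥ* (rowM u z.1).adjugate) z.2.2).IsHomogeneous s := by
    rintro ⟨ρ, j, l⟩
    have h3 : ∀ l', ∃ s, ∀ i, ((rowM u ρ).updateRow l (u j) l' i).IsHomogeneous s := fun l' => by
      simp only [updateRow_apply]
      split_ifs
      exacts [⟨_, hu j⟩, h1 ρ l']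
    choose δ hδ using h3
    refine ⟨∑ l', δ l', ?_⟩
    rw [← mulVec_transpose, adjugate_transpose, ← cramer_eq_adjugate_mulVec,
      cramer_transpose_apply, ← Matrix.det_transpose, Matrix.det_apply']
    refine IsHomogeneous.sum _ _ _ fun σ _ => ?_
    rw [← zero_add (∑ l', δ l'), ← map_intCast (C : k →+* MvPolynomial ι k)]
    exact (isHomogeneous_C _ _).mul (IsHomogeneous.prod _ _ _ fun l' _ => hδ l' _)
  choose s hs using h2
  refine ⟨∏ z ∈ univ.filter fun z : (Fin r → Fin q ⊕ Fin r) × Fin q × Fin r =>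
    (u z.2.1 ᵥ* (rowM u z.1).adjugate) z.2.2 ∉ V.I, (u z.2.1 ᵥ* (rowM u z.1).adjugate) z.2.2, _,
    IsHomogeneous.prod _ _ _ fun z _ => hs z, fun h => ?_, fun x hx ρ j l h => ?_⟩
  · obtain ⟨z, hz, h'⟩ := Ideal.IsPrime.prod_mem_iff.1 h
    exact (mem_filter.1 hz).2 h'
  · rw [map_prod, prod_ne_zero_iff] at hx
    exact hx (ρ, j, l) (mem_filter.2 ⟨mem_univ _, h⟩)

theorem eng_inf (v : AbsoluteValue k ℝ) {M : Type} [Fintype M] {A N : ℕ} (σ : Fin (A + 1) → M)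
    {y : M → k} (hy : ∀ a, y (σ a) ≠ 0) (h0 : ∀ i, y i ≠ 0 → ∃ a, σ a = i) (e : ℕ)
    {x : Fin N → k} (hx : x ≠ 0) :
    ⨅ a, lamM v 0 e ![0, 0, 1] x (y (σ a)) = e * Real.log (nm v x) - Real.log (nm v y) := by
  have h1 := main_ml_sup_pos v hx
  have h2 : ∀ a, lamM v 0 e ![0, 0, 1] x (y (σ a)) =
      e * Real.log (nm v x) - Real.log (v (y (σ a))) := fun a => by
    rw [lamM, pow_zero, one_mul, Real.log_div (by positivity) (v.ne_zero (hy a)), Real.log_pow, nm]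
  obtain ⟨a₀, ha⟩ := Finite.exists_max fun a => v (y (σ a))
  have h3 : nm v y = v (y (σ a₀)) := by
    refine le_antisymm (Real.iSup_le (fun i => ?_) (v.nonneg _))
      (le_ciSup (f := fun i => v (y i)) (Set.finite_range _).bddAbove _)
    by_cases hi : y i = 0
    · rw [hi, map_zero]
      exact v.nonneg _
    · obtain ⟨a, rfl⟩ := h0 i hi
      exact ha a
  rw [h3, ← h2]
  refine le_antisymm (ciInf_le (Set.finite_range _).bddBelow a₀) (le_ciInf fun a => ?_)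
  rw [h2, h2]
  exact sub_le_sub_left (Real.log_le_log (v.pos (hy a)) (ha a)) _

theorem eng_enum (M : Type) [Finite M] [Nonempty M] :
    ∃ (A : ℕ) (σ : Fin (A + 1) → M), Function.Surjective σ := by
  obtain ⟨A, hA⟩ := Nat.exists_eq_succ_of_ne_zero (Nat.card_pos (α := M)).ne'
  exact ⟨A, _, (Finite.equivFinOfCardEq hA).symm.surjective⟩

variable [NumberField k] [Fintype ι]

/- Copy of `Am.multA`, with `vc_pt` and `hf` in place of `val_ptA`. -/
theorem multV (V : AV k ι) {n r q A A' : ℕ}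
    (B : Matrix (Fin n) (Fin (r + 1)) (MvPolynomial ι k))
    (L : Fin q → Fin (r + 1) → MvPolynomial ι k) {d : Fin q → ℕ}
    (hL : ∀ j l, (L j l).IsHomogeneous (d j)) (h : Fin (A + 1) → MvPolynomial ι k)
    (e : Fin (A + 1) → Fin q → ℕ)
    (f : Fin (A' + 1) → MvPolynomial (Fin (r + 1)) (MvPolynomial ι k)) (β : Fin (A' + 1) → ℕ)
    (hβ : ∀ l, (f l).IsHomogeneous (β l)) (hf : ∀ l, VC V.I L e (f l)) {ε : ℝ} (hε : 0 < ε) :
    ∃ P : MvPolynomial (Fin (r + 1)) (MvPolynomial ι k), BiH V P ∧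
      ∀ S : Finset (FinitePlace k), ∃ C : ℝ, ∀ (x : ι → k) (t : Fin (r + 1) → k),
        Aff V V.ao x → eval₂ (eval x) t P ≠ 0 → mn (B.map (eval x)) ≠ 0 →
        (∀ m, eval₂ (eval x) t (prd L (h m) (e m)) ≠ 0) → (∀ l, eval₂ (eval x) t (f l) ≠ 0) →
        ∑ p : Pl S, mu p * ((⨅ m, lamM (av p) 0 (∑ j, e m j) ![0, 0, 1]
            (B.map (eval x) *ᵥ t) (eval₂ (eval x) t (prd L (h m) (e m)))) -
          ⨅ l, lamM (av p) 0 (β l) ![0, 0, 1] (B.map (eval x) *ᵥ t)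
            (eval₂ (eval x) t (f l))) + logHeight (mn (B.map (eval x))) ≤
          (r + 1) * logHeight (B.map (eval x) *ᵥ t) +
            ε * (logHeight x + logHeight (B.map (eval x) *ᵥ t)) + C := by
  classical
  obtain ⟨F, hF, H⟩ := mainA V V.ao (univ.image fun s : Fin q ⊕ Fin (r + 1) =>
    (Sum.elim L (fun i => Pi.single i 1) s : Fin (r + 1) → MvPolynomial ι k)) B (half_pos hε)
  obtain ⟨Θ, sΘ, hΘ, hΘI, hZ⟩ := vc_pt V hL
  obtain ⟨D₁, hD₁⟩ := Finite.exists_le fun m => ∑ j, e m j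
  obtain ⟨D₂, hD₂⟩ := Finite.exists_le
    fun z : Fin (A' + 1) × (Fin (r + 1) → Fin q ⊕ Fin (r + 1)) =>
      β z.1 + (hat (rowM L z.2) (f z.1)).support.card
  obtain ⟨C₁, hC₁, H1⟩ := mult_loc (k := k) n r q A A' (D₁ + D₂)
  obtain ⟨C₂, hC₂, H2⟩ := sup_cmp (K := k) n (r + 1)
  obtain ⟨Gs, -, -, g3, g4, g5, g6, g7, g8⟩ := multU_set (0 : MvPolynomial ι k) 0 B L h f
  refine ⟨F * (∏ l, X l) * C Θ, (hF.mul (biH_prod univ fun l _ => biH_X l)).mul (biH_C hΘ hΘI),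
    fun S => ?_⟩
  choose Cr hCr using fun ρ : Pl S → Fin (r + 1) → Fin q ⊕ Fin (r + 1) =>
    H S (fun p => rowM L (ρ p)) fun p l => mem_image_of_mem _ (mem_univ _)
  obtain ⟨Wm, hW⟩ : ∃ Wm : ℝ, Wm = ∑ p : Pl S, (mu p : ℝ) := ⟨_, rfl⟩
  have hW0 : 0 ≤ Wm := hW ▸ sum_nonneg fun p _ => by positivity
  obtain ⟨s, hs⟩ : ∃ s : ℝ, s = ε / 2 / (Wm * (C₁ * (1 + C₂)) + 1) := ⟨_, rfl⟩
  have hs0 : 0 < s := by rw [hs]; positivity
  have hs1 : Wm * (C₁ * (1 + C₂)) * s ≤ ε / 2 := by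
    have : s * (Wm * (C₁ * (1 + C₂)) + 1) = ε / 2 := by rw [hs]; field_simp
    nlinarith
  obtain ⟨C₀, hC₀, H0⟩ := absA_all V V.ao S Gs hs0
  refine ⟨∑ ρ, |Cr ρ| + Wm * (C₁ * (1 + C₂)) * (1 + C₀), fun x t hE hev hmn hG hfl => ?_⟩
  rw [eval₂_mul, eval₂_mul, eval₂_prod, eval₂_C, mul_ne_zero_iff, mul_ne_zero_iff,
    prod_ne_zero_iff] at hev
  have ht : ∀ l, t l ≠ 0 := fun l => by simpa using hev.1.2 l (mem_univ _)
  have hht := logHeight_nonneg x
  obtain ⟨c₀, hc₀⟩ : ∃ c₀, c₀ = s * logHeight x + C₀ := ⟨_, rfl⟩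
  have hc0 : 0 ≤ c₀ := by rw [hc₀]; positivity
  have hcc : c₀ ≤ c₀ + C₂ * (1 + c₀) := le_add_of_nonneg_right (by positivity)
  have k0 := H0 x hE
  rw [← hc₀] at k0
  have k1 : ∀ p : Pl S, ∀ g ∈ Gs, av p (eval x g) ≤ Real.exp (c₀ + C₂ * (1 + c₀)) :=
    fun p g hg => (k0 p g hg).1.trans (Real.exp_le_exp.2 hcc)
  have k2 : ∀ p : Pl S, ∀ g ∈ Gs, eval x g ≠ 0 →
      Real.exp (-(c₀ + C₂ * (1 + c₀))) ≤ av p (eval x g) :=
    fun p g hg h0 => (Real.exp_le_exp.2 (neg_le_neg hcc)).trans ((k0 p g hg).2 h0)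
  obtain ⟨φ, hφ⟩ : ∃ φ : MvPolynomial ι k →+* k, φ = eval x := ⟨_, rfl⟩
  have hZ' := hZ x hev.2
  have hI := hE.2
  have hCr' := fun ρ => hCr ρ x t hE hev.1.1 hmn
  rw [← hφ] at hmn hG hfl k0 k1 k2 hZ' hI hCr' ⊢
  simp only [← eval_map, prd_map] at hG hfl ⊢
  have hG1 : ∀ m, φ (h m) ≠ 0 := fun m => by
    have := hG m
    rw [eval_prd] at this
    exact left_ne_zero_of_mul this
  have hG2 : ∀ j ∈ univ.filter fun j => ∃ m, e m j ≠ 0, (fun i => φ (L j i)) ⬝ᵥ t ≠ 0 := by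
    intro j hj h0
    obtain ⟨m, hm⟩ := (mem_filter.1 hj).2
    have := hG m
    rw [eval_prd] at this
    exact prod_ne_zero_iff.1 (right_ne_zero_of_mul this) j (mem_univ _) (by rw [h0, zero_pow hm])
  choose ρ hρ1 hρ2 hρ3 using fun p : Pl S =>
    greedy_rows (av p) (fun j i => φ (L j i)) _ t hG2 ht
  obtain ⟨e₀, he₀⟩ := Function.ne_iff.1 hmn
  have h1 := hCr' ρ (fun p => by rw [rowM_map]; exact hρ1 p) fun p => by rw [rowM_map]; exact hρ2 p
  simp only [vol, rowM_map] at h1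
  have h2 : ∀ p : Pl S, (⨅ m, lamM (av p) 0 (∑ j, e m j) ![0, 0, 1] (B.map φ *ᵥ t)
      (eval t (prd (fun j i => φ (L j i)) (φ (h m)) (e m)))) -
      (⨅ l, lamM (av p) 0 (β l) ![0, 0, 1] (B.map φ *ᵥ t) (eval t (map φ (f l)))) ≤
      ∑ l, lx (av p) (B.map φ *ᵥ t) ((rowM (fun j i => φ (L j i)) (ρ p) *ᵥ t) l) +
        C₁ * (1 + (c₀ + C₂ * (1 + c₀))) := by
    intro p
    have hN := rowM_map φ L (ρ p)
    have hd : (rowM (fun j i => φ (L j i)) (ρ p)).det = φ (rowM L (ρ p)).det := by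
      rw [← hN]
      exact (φ.map_det _).symm
    have hh : ∀ g, hat (rowM (fun j i => φ (L j i)) (ρ p)) (map φ g) =
        map φ (hat (rowM L (ρ p)) g) := fun g => by rw [hat_map, hN]
    have ha : ∀ j l, φ ((L j ᵥ* (rowM L (ρ p)).adjugate) l) =
        ((fun i => φ (L j i)) ᵥ* (rowM (fun j i => φ (L j i)) (ρ p)).adjugate) l := fun j l => by
      rw [RingHom.map_vecMul, ← hN]
      exact congrArg (fun M => ((φ ∘ L j) ᵥ* M) l) (φ.map_adjugate (rowM L (ρ p)))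
    obtain ⟨s1, s2⟩ := H2 (av p) (B.map φ) e₀ t c₀ hc0 (fun i j => (k0 p _ (g4 i j)).1)
      (by rw [mn_map] at he₀ ⊢; exact (k0 p _ (g5 e₀)).2 he₀) fun h0 => ht 0 (congrFun h0 0)
    have z0 : av p 0 ≤ Real.exp (c₀ + C₂ * (1 + c₀)) := by
      rw [map_zero]
      positivity
    refine H1 (av p) _ (fun m => φ (h m)) e (fun l => map φ (f l)) β (fun _ => 0) (fun _ => 0) _
      0 0 t _ _ (hc0.trans hcc) (fun m => ?_) (fun l => ⟨?_, (hβ l).map φ, ?_⟩) ⟨fun i j => ?_, ?_⟩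
      ?_ z0 z0 (fun m => k2 p _ (g3 m) (hG1 m)) (fun l μ => ?_) s1
      (s2.trans (le_add_of_nonneg_left hc0)) (hρ2 p) hG hfl
      (fun m j l hj => hρ3 p j (mem_filter.2 ⟨mem_univ _, m, hj⟩) l)
      fun Wt w ν w1 w2 w3 w4 l => ?_
    · have := hD₁ m
      omega
    · have := hD₂ (l, ρ p)
      simp only at this
      omega
    · have := hD₂ (l, ρ p)
      have h3 := card_le_card (support_map_subset φ (hat (rowM L (ρ p)) (f l)))
      simp only at this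
      rw [hh]
      omega
    · rw [← hN]
      exact k1 p _ (g6 _ i j)
    · rw [hd]
      exact k2 p _ (g7 _) (hd ▸ hρ1 p)
    · rw [hd]
      exact k1 p _ (g7 _)
    · rw [hh, coeff_map]
      exact k1 p _ (g8 _ l μ)
    · rw [hh]
      intro μ hμ
      rw [mem_support_iff, coeff_map] at hμ
      exact hf l (ρ p) (fun h0 => hρ1 p (hd.trans (hI _ h0))) Wt w ν w1 w2
        (fun m j l hj hl => w3 m j l hj (ha j l ▸ hZ' _ j l hl)) w4 μ fun h0 => hμ (hI _ h0)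
  have h3 := sum_le_sum fun (p : Pl S) (_ : p ∈ univ) =>
    mul_le_mul_of_nonneg_left (h2 p) (Nat.cast_nonneg (mu p))
  simp only [mul_add (mu _ : ℝ), sum_add_distrib, ← sum_mul, ← hW] at h3
  have h4 : Cr ρ ≤ ∑ ρ, |Cr ρ| := (le_abs_self _).trans
    (single_le_sum (f := fun ρ => |Cr ρ|) (fun _ _ => abs_nonneg _) (mem_univ ρ))
  have h5 := mul_le_mul_of_nonneg_right hs1 hht
  have h6 := mul_nonneg hε.le (logHeight_nonneg (B.map φ *ᵥ t))
  have h7 : Wm * (C₁ * (1 + (c₀ + C₂ * (1 + c₀)))) =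
      Wm * (C₁ * (1 + C₂)) * s * logHeight x + Wm * (C₁ * (1 + C₂)) * (1 + C₀) := by
    rw [hc₀]
    ring
  push_cast at h1
  linarith

/- Restrict both families to the members not in `pr V.I n` (if there is none the conclusion is
vacuous, `Θ = 1`), enumerate them by `Fin (A + 1)`, apply `multV` with `h = 1` (`cur_prd`, `ev_cur`,
`cur_hom`), put `un P` (`un_bih`, `cur_un`) and all these members into `Θ`; the other members vanish
at the point (`Lr.pr_zero`); `isum_plc`. -/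
theorem eng (V : AV k ι) {N n q : ℕ} (B : Matrix (Fin N) (Fin (n + 1)) (MvPolynomial ι k))
    (u : Fin q → Fin (n + 1) → MvPolynomial ι k) {d : Fin q → ℕ}
    (hu : ∀ j l, (u j l).IsHomogeneous (d j)) {M T : Type} [Fintype M] [Fintype T]
    (m : M → Fin q → ℕ) {e : ℕ} (hm : ∀ i, ∑ j, m i j = e)
    (f : T → MvPolynomial (ι ⊕ Fin (n + 1)) k) {β : ℕ × ℕ}
    (hf : ∀ l, (f l).IsWeightedHomogeneous (bw ι (Fin (n + 1))) β)
    (hv : ∀ l, VC V.I u (fun i : {i // ∏ j, lin (u j) ^ m i j ∉ pr V.I n} => m i) (cur (f l)))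
    {ε : ℝ} (hε : 0 < ε) :
    ∃ (Θ : MvPolynomial (ι ⊕ Fin (n + 1)) k) (s : ℕ × ℕ),
      Θ.IsWeightedHomogeneous (bw ι (Fin (n + 1))) s ∧ Θ ∉ pr V.I n ∧
      ∀ S : Finset (FinitePlace k), ∃ C : ℝ, ∀ (a : ι → k) (t : Fin (n + 1) → k) (x : Fin N → k),
        Aff V V.ao a → eval (Sum.elim a t) Θ ≠ 0 → mn (B.map (eval a)) ≠ 0 →
        x = B.map (eval a) *ᵥ t → (fun i => eval (Sum.elim a t) (∏ j, lin (u j) ^ m i j)) ≠ 0 →
        (fun l => eval (Sum.elim a t) (f l)) ≠ 0 →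
        isum (plc S) (fun v => (e * Real.log (nm v x) -
            Real.log (nm v fun i => eval (Sum.elim a t) (∏ j, lin (u j) ^ m i j))) -
          (β.2 * Real.log (nm v x) - Real.log (nm v fun l => eval (Sum.elim a t) (f l)))) +
          logHeight (mn (B.map (eval a))) ≤
          (n + 1) * logHeight x + ε * (logHeight a + logHeight x) + C := by
  classical
  have hp := Lr.pr_prime V.isPrime n
  have hz : ∀ (a : ι → k) (t : Fin (n + 1) → k), Aff V V.ao a → ∀ g ∈ pr V.I n,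
      eval (Sum.elim a t) g = 0 := fun a t ha g hg => by
    rw [← aeval_eq_eval]
    exact Lr.pr_zero (fun P hP => by rw [aeval_eq_eval]; exact ha.2 P hP) t g hg
  have h1 : (1 : MvPolynomial (ι ⊕ Fin (n + 1)) k) ∉ pr V.I n :=
    (Ideal.ne_top_iff_one _).1 hp.ne_top
  rcases isEmpty_or_nonempty {i // ∏ j, lin (u j) ^ m i j ∉ pr V.I n} with hM | hM
  · refine ⟨1, 0, isWeightedHomogeneous_one _ _, h1, fun S => ⟨0, fun a t x ha _ _ _ h _ => ?_⟩⟩
    exact (h (funext fun i => hz a t ha _ (not_not.1 fun hi => hM.false ⟨i, hi⟩))).elim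
  rcases isEmpty_or_nonempty {l // f l ∉ pr V.I n} with hT | hT
  · refine ⟨1, 0, isWeightedHomogeneous_one _ _, h1, fun S => ⟨0, fun a t x ha _ _ _ _ h => ?_⟩⟩
    exact (h (funext fun i => hz a t ha _ (not_not.1 fun hi => hT.false ⟨i, hi⟩))).elim
  obtain ⟨A, σ, hσ⟩ := eng_enum {i // ∏ j, lin (u j) ^ m i j ∉ pr V.I n}
  obtain ⟨A', τ, hτ⟩ := eng_enum {l // f l ∉ pr V.I n}
  obtain ⟨P, hP, H⟩ := multV V B u hu (fun _ => 1) (fun a => m (σ a)) (fun l => cur (f (τ l)))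
    (fun _ => β.2) (fun l => cur_hom (hf _))
    (fun l ρ hρ Wt w ν w1 w2 w3 w4 => hv (τ l) ρ hρ Wt w ν w1 w2
      (fun i => by obtain ⟨a, rfl⟩ := hσ i; exact w3 a)
      fun i => by obtain ⟨a, rfl⟩ := hσ i; exact w4 a) hε
  obtain ⟨s, hs, hs'⟩ := un_bih ((biH_X 0).mul hP)
  refine ⟨un (X 0 * P) * (∏ a, ∏ j, lin (u j) ^ m (σ a) j) * ∏ l, f (τ l), _,
    (hs.mul (IsWeightedHomogeneous.prod _ _ _ fun a _ => IsWeightedHomogeneous.prod _ _ _
      fun j _ => (lin_hom (hu j)).pow _)).mul (IsWeightedHomogeneous.prod _ _ _ fun l _ => hf _),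
    fun h => ?_, fun S => ?_⟩
  · rcases hp.mem_or_mem h with h | h
    · rcases hp.mem_or_mem h with h | h
      · exact hs' h
      · obtain ⟨a, -, ha⟩ := Ideal.IsPrime.prod_mem_iff.1 h
        exact (σ a).2 ha
    · obtain ⟨l, -, hl⟩ := Ideal.IsPrime.prod_mem_iff.1 h
      exact (τ l).2 hl
  obtain ⟨C₀, hC⟩ := H S
  refine ⟨C₀, fun a t x ha hΘ hmn hx _ _ => ?_⟩
  rw [map_mul, map_mul, map_prod, map_prod _ fun l => f (τ l), mul_ne_zero_iff, mul_ne_zero_iff,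
    prod_ne_zero_iff, prod_ne_zero_iff, ← ev_cur, cur_un, eval₂_mul, eval₂_X,
    mul_ne_zero_iff] at hΘ
  obtain ⟨⟨⟨t0, hP0⟩, hG⟩, hF⟩ := hΘ
  have hx0 : x ≠ 0 := fun h0 => by
    obtain ⟨w, hw⟩ := Function.ne_iff.1 hmn
    have h2 : (B.map (eval a)).submatrix w id *ᵥ t = 0 :=
      funext fun i => congrFun (hx.symm.trans h0) (w i)
    exact t0 (congrFun (Matrix.eq_zero_of_mulVec_eq_zero hw h2) 0)
  have h2 := hC a t ha hP0 hmn (fun i => by rw [← cur_prd, ev_cur]; exact hG i (mem_univ _))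
    fun l => by rw [ev_cur]; exact hF l (mem_univ _)
  have h3 := fun v => eng_inf v (fun i => (σ i).1)
    (y := fun i => eval (Sum.elim a t) (∏ j, lin (u j) ^ m i j)) (fun i => hG i (mem_univ _))
    (fun i hi => by
      obtain ⟨b, hb⟩ := hσ ⟨i, fun h0 => hi (hz a t ha _ h0)⟩
      exact ⟨b, congrArg Subtype.val hb⟩) e hx0
  have h4 := fun v => eng_inf v (fun i => (τ i).1) (y := fun l => eval (Sum.elim a t) (f l))
    (fun i => hF i (mem_univ _))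
    (fun i hi => by
      obtain ⟨b, hb⟩ := hτ ⟨i, fun h0 => hi (hz a t ha _ h0)⟩
      exact ⟨b, congrArg Subtype.val hb⟩) β.2 hx0
  simp only [← hx, ← cur_prd, ev_cur, hm, h3, h4] at h2
  rw [Fintype.sum_sum_type] at h2
  rw [Sv.isum_plc, ← sum_coe_sort S]
  simpa only [mu, av, Sum.elim_inl, Sum.elim_inr, Nat.cast_one, one_mul] using h2

end Pool.Agent.Lib.MP_8865d3_nt.Ai
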