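import Pool.Agent.Lib.MP_8865d3_nt.Ai.Val
import Pool.Agent.Lib.MP_8865d3_nt.Ai.Eng

/-! The inequality at points over the affine part of the base. -/

namespace Pool.Agent.Lib.MP_8865d3_nt.Ai

open MvPolynomial Matrix Height NumberField Pool.Agent.Lib.MP_651af7_nt Av
open Pool.Agent.Lib.MP_8865d3_nt.Lr
open Es (mn)
open As (Aff absA_all)
open Bx (lam)
open Sv (isum plc mv mv_bd isum_add_osum finS_mv gsum_mv homog_aeval isum_nonneg isum_mono isum_add
  isum_const_mul)

set_option linter.unusedSectionVars false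

variable {k L ι β γ T : Type} [Field k] [Field L] [NumberField L] [Algebra k L] [Fintype ι]
  [Fintype β] [Fintype γ] [Fintype T] {N n r q s b e e' dz : ℕ} {A : AV L ι} {σ : Fin r → ι → L}
  {I : Ideal (MvPolynomial (Fin N) k)} {B : Fin N → Fin (n + 1) → MvPolynomial ι L}

theorem mn_ne {a : ι → L} {t : Fin (n + 1) → L} (h : (fun p : ι × (Fin (r + n + 1) → Fin N) =>
    eval (Sum.elim a t) (wr A σ (fun i => lin (B i)) p.1 p.2)) ≠ 0) :
    mn ((of B).map (eval a)) ≠ 0 := by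
  obtain ⟨⟨b₀, S⟩, h1⟩ := Function.ne_iff.1 h
  rw [wr_lin, map_mul, RingHom.map_det] at h1
  have h2 := (linearIndependent_rows_of_det_ne_zero (right_ne_zero_of_mul h1)).comp _
    Sum.inr_injective
  have h3 : LinearIndependent L fun j i => eval a (B i j) :=
    LinearIndependent.of_comp (LinearMap.funLeft L L fun s => S (ee r n s)) (by
      refine (congrArg (fun z : Fin (n + 1) → Fin r ⊕ Fin (n + 1) → L => LinearIndependent L z)
        ?_).mp h2
      funext j s
      exact ev_inl' a t _)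
  obtain ⟨u, hu⟩ := Function.ne_iff.1 (Bx.minors_ne_zero h3)
  exact Function.ne_iff.2 ⟨u, fun h0 => hu ((det_transpose _).symm.trans h0)⟩

theorem lz_bd {Z : T → MvPolynomial (ι ⊕ Fin N) L} {d : ℕ × ℕ}
    (hZ : ∀ τ, (Z τ).IsWeightedHomogeneous (bw ι (Fin N)) d) : ∃ C : ℝ, ∀ (a : ι → L)
      (x : Fin N → L), a ≠ 0 → x ≠ 0 → (fun τ => eval (Sum.elim a x) (Z τ)) ≠ 0 → ∀ U,
      isum U (fun v => d.1 * Real.log (nm v a) + d.2 * Real.log (nm v x) -
        Real.log (nm v fun τ => eval (Sum.elim a x) (Z τ))) ≤ d.1 * logHeight a +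
          d.2 * logHeight x - logHeight (fun τ => eval (Sum.elim a x) (Z τ)) + C := by
  rcases N with _ | N
  · exact ⟨0, fun a x _ h => (h (Subsingleton.elim _ _)).elim⟩
  obtain ⟨C, -, h⟩ := mv_bd hZ
  refine ⟨C, fun a x a0 x0 z0 U => ?_⟩
  have h1 := (h a x a0 x0 z0 U).2.1
  have h2 := isum_add_osum U (finS_mv (d := d) (Γ := Z) a x)
  rw [gsum_mv a0 x0 z0] at h2
  change isum U (fun v => mv v d Z a x) ≤ _
  linarith

theorem span_le (v : AbsoluteValue L ℝ) {M : Type} [Fintype M] {y : M → L} {z : β → L} {c : M → L}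
    {w : M → β → L} (h : ∀ i, c i * y i = ∑ l, w i l * z l) {c₀ : ℝ}
    (hc : ∀ i, Real.exp (-c₀) ≤ v (c i)) (hw : ∀ i l, v (w i l) ≤ Real.exp c₀) (hy : y ≠ 0)
    (hz : z ≠ 0) : Real.log (nm v y) ≤ Real.log (nm v z) + (Fintype.card β + 2 * c₀) := by
  have h0 := nm_pos v hz
  rw [← Real.log_exp (_ + 2 * c₀), ← Real.log_mul h0.ne' (Real.exp_pos _).ne']
  refine Real.log_le_log (nm_pos v hy) (Real.iSup_le (fun i => ?_) (by positivity))
  have h1 : v (c i) * v (y i) ≤ Fintype.card β * (Real.exp c₀ * nm v z) := by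
    rw [← map_mul, h i, ← nsmul_eq_mul, ← Finset.card_univ, ← Finset.sum_const]
    refine (v.sum_le _ _).trans (Finset.sum_le_sum fun l _ => ?_)
    rw [map_mul]
    exact mul_le_mul (hw i l) (le_nm v z l) (v.nonneg _) (Real.exp_pos _).le
  have h2 := (mul_le_mul_of_nonneg_right (hc i) (v.nonneg (y i))).trans h1
  have h3 : (Fintype.card β : ℝ) ≤ Real.exp (Fintype.card β) :=
    (le_add_of_nonneg_right zero_le_one).trans (Real.add_one_le_exp _)
  rw [Real.exp_neg, inv_mul_le_iff₀ (Real.exp_pos _)] at h2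
  rw [two_mul, Real.exp_add, Real.exp_add]
  refine h2.trans ?_
  have h4 := mul_le_mul_of_nonneg_right h3 (by positivity : 0 ≤ Real.exp c₀ * Real.exp c₀ * nm v z)
  linarith

theorem exists_pl {S : Finset (FinitePlace L)} {v : AbsoluteValue L ℝ} (h : v ∈ plc S) :
    ∃ p : Rt.Pl S, Rt.av p = v := by
  classical
  simp only [plc, Finset.mem_union, Finset.mem_image] at h
  obtain ⟨w, -, h⟩ | ⟨w, hw, h⟩ := h
  exacts [⟨.inl w, h⟩, ⟨.inr ⟨w, hw⟩, h⟩]

theorem lam_eq (v : AbsoluteValue L ℝ) {D : β → MvPolynomial (Fin N) L} {x : Fin N → L} (hx : x ≠ 0)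
    (h : (fun l => eval x (D l)) ≠ 0) :
    lam v D e x = e * Real.log (nm v x) - Real.log (nm v fun l => eval x (D l)) := by
  rw [← Real.log_pow, ← Real.log_div (pow_pos (nm_pos v hx) e).ne' (nm_pos v h).ne']
  rfl

theorem aff (hσ : A.LieBasis σ) (hI : (I.map (map (algebraMap k L))).IsPrime)
    (hB : ∀ i j, (B i j).IsHomogeneous b) {φ : ι → MvPolynomial (Fin N) L}
    {χ : Fin (n + 1) → MvPolynomial (Fin N) L}
    (hb : Bir (I.map (map (algebraMap k L))) A.I φ χ fun i => lin (B i))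
    (hp : ∃ u, mn (of B) u ∉ A.I) {F : β → MvPolynomial (Fin N) k}
    {G : γ → MvPolynomial (Fin N) k} (hF : ∀ l, (F l).IsHomogeneous e)
    (hG : ∀ l, (G l).IsHomogeneous e') (H : HV I (r + n) F G) (hF0 : ∃ l, F l ∉ I)
    (hF' : Split A.I e fun l => aeval (fun i => lin (B i)) (F l)) {ε : ℝ} (hε : 0 < ε) :
    ∃ (Θ : MvPolynomial (ι ⊕ Fin (n + 1)) L) (s : ℕ × ℕ),
      Θ.IsWeightedHomogeneous (bw ι (Fin (n + 1))) s ∧ Θ ∉ pr A.I n ∧
      ∀ S : Finset (FinitePlace L), ∃ C : ℝ, ∀ (a : ι → L) (t : Fin (n + 1) → L) (x : Fin N → L),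
        Aff A A.ao a → eval (Sum.elim a t) Θ ≠ 0 → (∀ j, t j ≠ 0) →
        (x = fun i => eval (Sum.elim a t) (lin (B i))) → x ≠ 0 →
        (fun l => eval x (map (algebraMap k L) (F l))) ≠ 0 →
        (fun l => eval x (map (algebraMap k L) (G l))) ≠ 0 →
        (fun p : ι × (Fin (r + n + 1) → Fin N) =>
          eval (Sum.elim a t) (wr A σ (fun i => lin (B i)) p.1 p.2)) ≠ 0 →
        isum (plc S) (fun v => lam v (fun l => map (algebraMap k L) (F l)) e x -
          lam v (fun l => map (algebraMap k L) (G l)) e' x) +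
          logHeight (fun p : ι × (Fin (r + n + 1) → Fin N) =>
            eval (Sum.elim a t) (wr A σ (fun i => lin (B i)) p.1 p.2)) ≤
          r * logHeight a + (r + n + 1) * logHeight x + ε * (logHeight a + logHeight x) + C := by
  classical
  obtain ⟨q, s, u, d, m, hu, hm, h1, h2⟩ := hF'
  obtain ⟨T, _, Z, dz, hZ⟩ := exists_zd hσ hB hp
  have hψ := fun i => lin_hom (hB i)
  have hε' : 0 < ε / 3 := by positivity
  have z1 : ∀ τ, (pb (fun i => lin (B i)) (Z τ)).IsWeightedHomogeneous (bw ι (Fin (n + 1)))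
      (dz + b * r, r) := fun τ => homog_aeval (((AddMonoidHom.id ℕ).coprod
        (AddMonoidHom.mulLeft b)).prod (AddMonoidHom.snd ℕ ℕ)) (by
      rintro (a | i)
      · simpa [bw] using isWeightedHomogeneous_X L (bw ι (Fin (n + 1))) (.inl a)
      · simpa [bw] using hψ i) (hZ.hom τ)
  have z2 : ∀ l, (aeval (fun i => lin (B i)) (G l)).IsWeightedHomogeneous (bw ι (Fin (n + 1)))
      (e' • (b, 1)) := fun l => by
    rw [← aeval_map_algebraMap L]
    exact psi_hom hψ ((hG l).map _)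
  obtain ⟨Θ₁, s₁, t1, t2, t3⟩ := eng A (of B) u hu m hm
    (fun p : γ × T => aeval (fun i => lin (B i)) (G p.1) * pb (fun i => lin (B i)) (Z p.2))
    (fun p => (z2 p.1).mul (z1 p.2))
    (fun p => val_crit hσ hI hB hb hp hF hG H hF0 h1 hZ p.1 p.2) hε'
  obtain ⟨Θ₂, s₂, C₂, t4, t5, t6⟩ := hZ.ht _ hε'
  obtain ⟨C₃, t7⟩ := lz_bd hZ.hom
  choose c₁ d₁ q₁ a1 a2 a3 using h1
  choose c₂ d₂ q₂ a4 a5 a6 using h2
  have hA := A.isPrime
  refine ⟨Θ₁ * rename Sum.inl (Θ₂ * ((∏ l, c₁ l) * ∏ i, c₂ i)), _, t1.mul (rename_inl_hom (t4.mul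
    ((IsHomogeneous.prod _ _ _ fun l _ => a1 l).mul (IsHomogeneous.prod _ _ _ fun i _ => a4 i)))),
    fun h => ?_, fun S => ?_⟩
  · simp [(pr_prime hA n).mul_mem_iff_mem_or_mem, t2, inl_mem', hA.mul_mem_iff_mem_or_mem, t5,
      Ideal.IsPrime.prod_mem_iff, a2, a5, -map_mul, -map_prod] at h
  obtain ⟨C₁, t8⟩ := t3 S
  obtain ⟨W, hW⟩ : ∃ W, W = isum (plc S) fun _ => 1 := ⟨_, rfl⟩
  have hW0 : 0 ≤ W := hW ▸ isum_nonneg _ fun _ _ _ => zero_le_one
  obtain ⟨C₀, -, t9⟩ := absA_all A A.ao S (Finset.univ.image c₂ ∪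
    Finset.univ.image fun p : Fin s × β => q₂ p.1 p.2) (ε := ε / 3 / (2 * W + 1)) (by positivity)
  refine ⟨C₁ + C₂ + C₃ + W * (Fintype.card β + 2 * C₀), fun a t x ha hΘ ht hx x0 xF xG hw => ?_⟩
  simp only [map_mul (eval _), ev_inl', map_prod (eval a), mul_ne_zero_iff, Finset.prod_ne_zero_iff,
    Finset.mem_univ, forall_true_left] at hΘ
  have a0 : a ≠ 0 := Function.ne_iff.2 ⟨A.ao, ha.1 ▸ one_ne_zero⟩
  have ev : ∀ P : MvPolynomial (Fin N) k, eval (Sum.elim a t) (aeval (fun i => lin (B i)) P) =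
      eval x (map (algebraMap k L) P) := fun P => by
    rw [← aeval_map_algebraMap L, ← aeval_eq_eval, Bx.trans_aev, hx]
    rfl
  have b1 : (fun i => eval (Sum.elim a t) (∏ j, lin (u j) ^ m i j)) ≠ 0 := fun h => by
    obtain ⟨l, hl⟩ := Function.ne_iff.1 xF
    have h3 := ev_pr ha.2 t (a3 l)
    simp only [map_sub, map_mul (eval _), map_sum, ev_inl', ev, congrFun h _, Pi.zero_apply,
      mul_zero, Finset.sum_const_zero, sub_zero] at h3
    exact mul_ne_zero (hΘ.2.2.1 l) hl h3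
  obtain ⟨b2, b3⟩ := t6 a t a0 ha.2 hΘ.2.1 ht hw
  have b4 := t8 a t x ha hΘ.1 (mn_ne hw) (hx.trans (funext fun i => ev_lin (R := L) a t (B i))) b1
    (by simpa only [map_mul (eval _), ev] using ne_mul xG b2)
  simp only [ev_pb, ← hx] at b2 b3
  have b5 := t7 a x a0 x0 b2 (plc S)
  have b6 := isum_mono (plc S) (f := fun v => lam v (fun l => map (algebraMap k L) (F l)) e x -
      lam v (fun l => map (algebraMap k L) (G l)) e' x)
      (g := fun v => (e * Real.log (nm v x) - Real.log (nm v fun i =>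
        eval (Sum.elim a t) (∏ j, lin (u j) ^ m i j)) - ((e' + r) * Real.log (nm v x) -
        Real.log (nm v fun l : γ × T => eval x (map (algebraMap k L) (G l.1)) *
          eval (Sum.elim a x) (Z l.2)))) + (dz * Real.log (nm v a) + r * Real.log (nm v x) -
        Real.log (nm v fun τ => eval (Sum.elim a x) (Z τ))) +
        (Fintype.card β + 2 * (ε / 3 / (2 * W + 1) * logHeight a + C₀)) * 1) fun v _ hv => by
    obtain ⟨p, rfl⟩ := exists_pl hv
    have c1 := span_le (Rt.av p) (c := fun i => eval a (c₂ i)) (w := fun i l => eval a (q₂ i l))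
      (fun i => by
        simpa only [map_sub, map_mul (eval _), map_sum, ev_inl', ev, sub_eq_zero] using
          ev_pr ha.2 t (a6 i))
      (fun i => (t9 a ha p _ (by simp)).2 (hΘ.2.2.2 i))
      (fun i l => (t9 a ha p _ (Finset.mem_union_right _
        (Finset.mem_image_of_mem _ (Finset.mem_univ (i, l))))).1) b1 xF
    have c2 : 0 ≤ dz * Real.log (nm (Rt.av p) a) := mul_nonneg (Nat.cast_nonneg _)
      (Real.log_nonneg (by simpa [ha.1] using le_nm (Rt.av p) a A.ao))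
    have c3 : Real.log (nm (Rt.av p) fun l : γ × T => eval x (map (algebraMap k L) (G l.1)) *
        eval (Sum.elim a x) (Z l.2)) = Real.log (nm (Rt.av p) fun l =>
          eval x (map (algebraMap k L) (G l))) + Real.log (nm (Rt.av p) fun τ =>
            eval (Sum.elim a x) (Z τ)) := by
      rw [← Real.log_mul (nm_pos _ xG).ne' (nm_pos _ b2).ne']
      exact congrArg _ (Real.iSup_fun_mul_eq_iSup_mul_iSup_of_nonneg (Rt.av p)
        (fun l => eval x (map (algebraMap k L) (G l))) fun τ => eval (Sum.elim a x) (Z τ))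
    rw [lam_eq _ x0 xF, lam_eq _ x0 xG]
    linarith
  rw [isum_add, isum_add, isum_const_mul, ← hW] at b6
  simp only [map_mul (eval _), ev, ev_pb, ← hx, Prod.snd_add, Prod.smul_snd, smul_eq_mul, mul_one,
    Nat.cast_add] at b4
  have b7 := logHeight_nonneg a
  have b8 := mul_nonneg hε.le (logHeight_nonneg x)
  have b9 : 2 * W * (ε / 3 / (2 * W + 1)) ≤ ε / 3 := by
    rw [← mul_div_assoc, div_le_iff₀ (by positivity)]
    nlinarith
  have b10 := mul_le_mul_of_nonneg_right b9 b7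
  linarith

end Pool.Agent.Lib.MP_8865d3_nt.Ai
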