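import Pool.Agent.Lib.MP_8865d3_nt.Ai.Core
import Pool.Agent.Lib.MP_8865d3_nt.Lr.Down

/-! Descent from the algebraic closure. -/

namespace Pool.Agent.Lib.MP_8865d3_nt.Ai

open MvPolynomial Module NumberField Height Pool.Agent.Lib.MP_651af7_nt Av Bx Ds
open Pool.Agent.Lib.MP_8865d3_nt.Lr

/- From `Lr.Concl.down` with `n = 0`, `χ = fun _ => 1` (then `cnt = 0`), or a copy of its proof. -/
theorem Concl.down {k K κ β γ : Type} [Field k] [NumberField k] [Field K] [NumberField K]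
    [Algebra k K] [Fintype κ] [Fintype β] [Fintype γ] {I : Ideal (MvPolynomial κ k)} {g : ℕ}
    {F : β → MvPolynomial κ k} {e : ℕ} {G : γ → MvPolynomial κ k} {e' : ℕ} {ε : ℝ}
    (h : Concl (I.map (map (algebraMap k K))) g (fun l => map (algebraMap k K) (F l)) e
      (fun l => map (algebraMap k K) (G l)) e' ε) : Concl I g F e G e' ε := by
  have h0 : ∀ {L : Type} [Field L] [NumberField L] (S : Finset (FinitePlace L)),
      cnt S (fun _ : Fin (0 + 1) => (1 : L)) = 0 := fun S => by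
    rw [cnt_lam S fun _ => one_ne_zero]
    simp [lam]
  obtain ⟨Θ, t, t1, t2, t3⟩ := h
  obtain ⟨Θ₀, t₀, u1, u2, u3⟩ := Lr.Concl.down (K := K) (n := 0) (I := I) (χ := fun _ => 1)
    ⟨Θ, t, t1, t2, fun S => by
      obtain ⟨C, hC⟩ := t3 S
      refine ⟨0, C, fun x x0 xz xΘ xF xG => ?_⟩
      simpa using hC x x0 xz xΘ xF xG⟩
  refine ⟨Θ₀, t₀, u1, u2, fun S => ?_⟩
  obtain ⟨c, C, hC⟩ := u3 S
  refine ⟨C, fun x x0 xz xΘ xF xG => ?_⟩
  simpa only [map_one, h0, mul_zero, add_zero] using (hC x x0 xz xΘ xF xG).2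

section

variable {Ω ι ν β : Type} [Field Ω] [CharZero Ω] [Fintype ι] [Fintype ν] [Fintype β] {n e : ℕ}
  {J : Ideal (MvPolynomial ι Ω)} {J' : Ideal (MvPolynomial ν Ω)} {a : ν → MvPolynomial ι Ω}
  {b : ι → MvPolynomial ν Ω}

omit [CharZero Ω] [Fintype ι] [Fintype ν] in
theorem desc_inl (P : MvPolynomial ι Ω) :
    tw b n (rename Sum.inl P) = rename Sum.inl (aeval b P) := by
  rw [Lr.tw, aeval_rename, Sum.elim_comp_inl, comp_aeval_apply]

omit [CharZero Ω] [Fintype ι] [Fintype ν] in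
theorem desc_lin (u : Fin (n + 1) → MvPolynomial ι Ω) :
    tw b n (lin u) = lin fun j => aeval b (u j) := by
  simp only [lin, map_sum, map_mul, desc_inl]
  simp only [Lr.tw, aeval_X, Sum.elim_inr]

theorem InSpan.tw (hJ : J.IsPrime) (h1 : Inv J J' a b) (h2 : Inv J' J b a)
    {f : β → MvPolynomial (ι ⊕ Fin (n + 1)) Ω} {p : MvPolynomial (ι ⊕ Fin (n + 1)) Ω}
    (h : InSpan J f p) : InSpan J' (fun l => tw b n (f l)) (tw b n p) := by
  obtain ⟨c, d, q, c1, c2, c3⟩ := h
  obtain ⟨db, eb⟩ := h2.hom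
  refine ⟨aeval b c, _, fun l => aeval b (q l), c1.aeval b eb, h1.pull hJ c1 c2, ?_⟩
  simpa only [map_sub, map_mul, map_sum, desc_inl, pr] using tw_mem h2 _ c3

theorem Split.tw (hJ : J.IsPrime) (h1 : Inv J J' a b) (h2 : Inv J' J b a)
    {f : β → MvPolynomial (ι ⊕ Fin (n + 1)) Ω} (h : Split J e f) :
    Split J' e fun l => tw b n (f l) := by
  obtain ⟨q, s, u, d, m, c1, c2, c3, c4⟩ := h
  obtain ⟨db, eb⟩ := h2.hom
  refine ⟨q, s, fun j t => aeval b (u j t), fun j => db * d j, m, fun j t => (c1 j t).aeval b eb,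
    c2, fun l => ?_, fun i => ?_⟩
  · simpa only [map_prod, map_pow, desc_lin] using (c3 l).tw hJ h1 h2
  · simpa only [map_prod, map_pow, desc_lin] using (c4 i).tw hJ h1 h2

omit [CharZero Ω] [Fintype ι] in
theorem desc_map {K : Type} [Field K] [Algebra K Ω] (u : Fin (n + 1) → MvPolynomial ι K) :
    map (algebraMap K Ω) (lin u) = lin fun j => map (algebraMap K Ω) (u j) := by
  simp only [lin, map_sum, map_mul, map_rename, map_X]

omit [CharZero Ω] [Fintype ι] in
theorem InSpan.fin {f : β → MvPolynomial (ι ⊕ Fin (n + 1)) Ω}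
    {p : MvPolynomial (ι ⊕ Fin (n + 1)) Ω} (h : InSpan J f p) :
    ∃ s : Set (MvPolynomial ι Ω), s.Finite ∧ ∀ (K : Type) [Field K] [Algebra K Ω],
      s ⊆ Set.range (map (algebraMap K Ω)) → (dn K J).map (map (algebraMap K Ω)) = J →
      ∀ f' p', (∀ l, map (algebraMap K Ω) (f' l) = f l) → map (algebraMap K Ω) p' = p →
        InSpan (dn K J) f' p' := by
  obtain ⟨c, d, q, c1, c2, c3⟩ := h
  refine ⟨insert c (Set.range q), (Set.finite_range q).insert c, fun K _ _ hs hm f' p' e1 e2 => ?_⟩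
  obtain ⟨c', rfl⟩ := hs (.inl rfl)
  choose q' hq using fun l => hs (.inr ⟨l, rfl⟩)
  refine ⟨c', d, q', wh_of_map c1, c2, ?_⟩
  change _ ∈ pr (dn K J) n
  rw [pr_dn hm, mem_dn]
  simpa only [map_sub, map_mul, map_sum, map_rename, hq, e1, e2, pr] using c3

omit [CharZero Ω] [Fintype ι] in
theorem Split.fin {f : β → MvPolynomial (ι ⊕ Fin (n + 1)) Ω} (h : Split J e f) :
    ∃ s : Set (MvPolynomial ι Ω), s.Finite ∧ ∀ (K : Type) [Field K] [Algebra K Ω],
      s ⊆ Set.range (map (algebraMap K Ω)) → (dn K J).map (map (algebraMap K Ω)) = J →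
      ∀ f', (∀ l, map (algebraMap K Ω) (f' l) = f l) → Split (dn K J) e f' := by
  obtain ⟨q, s, u, d, m, c1, c2, c3, c4⟩ := h
  choose s₁ a1 a2 using fun l => (c3 l).fin
  choose s₂ b1 b2 using fun i => (c4 i).fin
  refine ⟨(Set.range fun p : Fin q × Fin (n + 1) => u p.1 p.2) ∪ ((⋃ l, s₁ l) ∪ ⋃ i, s₂ i),
    (Set.finite_range _).union ((Set.finite_iUnion a1).union (Set.finite_iUnion b1)),
    fun K _ _ hs hm f' e1 => ?_⟩
  choose u' hu using fun j t => hs (.inl ⟨(j, t), rfl⟩)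
  have e2 : ∀ i, map (algebraMap K Ω) (∏ j, lin (u' j) ^ m i j) = ∏ j, lin (u j) ^ m i j :=
    fun i => by simp only [map_prod, map_pow, desc_map, hu]
  exact ⟨q, s, u', d, m, fun j t => wh_of_map (Ω := Ω) ((hu j t).symm ▸ c1 j t), c2,
    fun l => a2 l K (fun x hx => hs (.inr (.inl (Set.mem_iUnion.2 ⟨l, hx⟩)))) hm _ _ e2 (e1 l),
    fun i => b2 i K (fun x hx => hs (.inr (.inr (Set.mem_iUnion.2 ⟨i, hx⟩)))) hm _ _ e1 (e2 i)⟩

end

/- As `Lr.descendP`: `tw b n (lin u) = lin fun j => aeval b (u j)`; transport `InSpan`, `Split`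
along `tw` (`tw_mem`, `tw_not_mem`, `inl_mem`), then descend the finitely many forms. -/
theorem descendS {k ι κ β : Type} [Field k] [CharZero k] [Fintype ι] [Fintype κ] [Fintype β]
    {n b e : ℕ} {I : Ideal (MvPolynomial κ k)} (hI : Var I)
    {J : Ideal (MvPolynomial ι (AlgebraicClosure k))} {A : Type} [AddCommGroup A]
    {co : A → ι → AlgebraicClosure k} (hJ : Pts J co) (hm : HasModel co)
    {B : κ → Fin (n + 1) → MvPolynomial ι (AlgebraicClosure k)}
    (hB : ∀ i j, (B i j).IsHomogeneous b) {φ : ι → MvPolynomial κ (AlgebraicClosure k)}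
    {χ : Fin (n + 1) → MvPolynomial κ (AlgebraicClosure k)}
    (hb : Bir (I.map (map (algebraMap k (AlgebraicClosure k)))) J φ χ fun i => lin (B i))
    {F : β → MvPolynomial κ k} (hF : Split J e fun l => aeval (fun i => lin (B i)) (F l)) :
    ∃ K : IntermediateField k (AlgebraicClosure k), FiniteDimensional k K ∧
      ∃ (m b' : ℕ) (V : AV K (Fin m)) (B' : κ → Fin (n + 1) → MvPolynomial (Fin m) K)
        (φ' : Fin m → MvPolynomial κ K) (χ' : Fin (n + 1) → MvPolynomial κ K),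
        (I.map (map (algebraMap k K))).IsPrime ∧ (∀ i j, (B' i j).IsHomogeneous b') ∧
        Bir (I.map (map (algebraMap k K))) V.I φ' χ' (fun i => lin (B' i)) ∧
        Split V.I e fun l => aeval (fun i => lin (B' i)) (F l) := by
  obtain ⟨m, J', co', Φ, h, hΦ, h3, h4⟩ := hm
  have : Nonempty A := ⟨0⟩
  obtain ⟨a₀, b₀, h1, h2⟩ := hJ.birat h h3 h4
  have hb' := hb.trans hI.prime hJ.prime h.prime hJ.exists_X h1 h2
  obtain ⟨s₀, f0, hS⟩ := (hF.tw hJ.prime h1 h2).fin
  obtain ⟨db, eb⟩ := h2.hom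
  have hB₀ := fun i j => (hB i j).aeval b₀ eb
  have e0 : ∀ l, tw b₀ n (aeval (fun i => lin (B i)) (F l)) =
      aeval (fun i => lin fun j => aeval b₀ (B i j)) (F l) := fun l => by
    simpa only [AlgHom.coe_restrictScalars', desc_lin] using
      comp_aeval_apply (fun i => lin (B i)) ((tw b₀ n).restrictScalars k) (F l)
  simp only [desc_lin, e0] at hb' hS
  generalize (fun l => aeval φ (a₀ l)) = φ₀ at hb'
  obtain ⟨s, hs⟩ : J'.FG := IsNoetherian.noetherian J'
  obtain ⟨K, hK, a1, a2, a3⟩ := exists_field (k := k) (s.finite_toSet.union (f0.union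
    (Set.finite_range fun p : κ × Fin (n + 1) => aeval b₀ (B p.1 p.2))))
    ((Set.finite_range φ₀).union (Set.finite_range χ))
    (Set.finite_range fun p : Fin m × Fin m => Φ p.1 p.2)
  choose φ' hφ using fun j => a2 (.inl ⟨j, rfl⟩)
  choose χ' hχ using fun j => a2 (.inr ⟨j, rfl⟩)
  choose B' hB' using fun i j => a1 (.inr (.inr ⟨(i, j), rfl⟩))
  choose Φ' hΦ' using fun a b => a3 ⟨(a, b), rfl⟩
  have hm := dn_map (K := K) hs.symm fun x hx => a1 (.inl hx)
  have ev : ∀ {σ : Type} (v : σ → AlgebraicClosure k) (P : MvPolynomial σ K),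
      aeval v P = eval v (map (algebraMap K (AlgebraicClosure k)) P) := fun v P => by
    rw [eval_map, aeval_def]
  obtain ⟨V, hV, -⟩ := exists_av (AlgebraicClosure k) (dn K J') (dn_hom h.hom)
    (hm.symm ▸ h.prime) A co' h.ne (fun x P hP => (ev _ P).trans (h.zero x _ hP))
    (fun v hv hz => h.bij v hv fun P hP => by
      have : (dn K J').map (map (algebraMap K (AlgebraicClosure k))) ≤ RingHom.ker (eval v) :=
        Ideal.map_le_iff_le_comap.2 fun Q hQ => (ev v Q).symm.trans (hz Q hQ)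
      exact this (hm.symm ▸ hP))
    Φ' (fun a b => wh_of_map (Ω := AlgebraicClosure k) ((hΦ' a b).symm ▸ hΦ.1 a b)) fun x y => by
      obtain ⟨c, hc, e⟩ := hΦ.2 x y
      exact ⟨c, hc, fun a b => by rw [ev, hΦ' a b, e]⟩
  refine ⟨K, hK, m, db * b, V, B', φ', χ', up_eq (K := K) I ▸ hI.prime.comap _,
    fun i j => wh_of_map (Ω := AlgebraicClosure k) ((hB' i j).symm ▸ hB₀ i j), ?_, ?_⟩
  · rw [hV, ← up_eq]
    refine bir_dn hm ?_
    simpa only [hφ, hχ, desc_map, hB'] using hb'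
  · rw [hV]
    refine hS K (fun x hx => a1 (.inr (.inl hx))) hm _ fun l => ?_
    refine (comp_aeval_apply (fun i => lin (B' i))
      (mapAlgHom (IsScalarTower.toAlgHom k K (AlgebraicClosure k))) (F l)).trans ?_
    congr 2
    funext i
    exact (desc_map (B' i)).trans (by simp only [hB'])

theorem of_model {k ι β γ : Type} [Field k] [NumberField k] [Fintype ι] [Fintype β] [Fintype γ]
    {N n g b e e' : ℕ} {I : Ideal (MvPolynomial (Fin N) k)} (hI : Var I) (hs : Smooth I g)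
    {J : Ideal (MvPolynomial ι (AlgebraicClosure k))} {A : Type} [AddCommGroup A]
    {co : A → ι → AlgebraicClosure k} (hJ : Pts J co) (hm : HasModel co)
    {B : Fin N → Fin (n + 1) → MvPolynomial ι (AlgebraicClosure k)}
    (hB : ∀ i j, (B i j).IsHomogeneous b) {φ : ι → MvPolynomial (Fin N) (AlgebraicClosure k)}
    {χ : Fin (n + 1) → MvPolynomial (Fin N) (AlgebraicClosure k)}
    (hb : BirP (I.map (map (algebraMap k (AlgebraicClosure k)))) J φ χ fun i => lin (B i))
    {F : β → MvPolynomial (Fin N) k} {G : γ → MvPolynomial (Fin N) k}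
    (hF : ∀ l, (F l).IsHomogeneous e) (hG : ∀ l, (G l).IsHomogeneous e')
    (hF' : Split J e fun l => aeval (fun i => lin (B i)) (F l)) (H : HV I g F G) {ε : ℝ}
    (hε : 0 < ε) : Concl I g F e G e' ε := by
  obtain ⟨L, hL, m, b', V, B', φ', χ', h1, h2, h3, h4⟩ := descendS hI hJ hm hB hb.bir hF'
  have : NumberField L := NumberField.of_module_finite k L
  exact Concl.down (K := L) (core V hI.hom h1 hs h2 h3 hF hG h4 H hε)

end Pool.Agent.Lib.MP_8865d3_nt.Ai
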