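import Pool.Agent.Lib.MP_8865d3_nt.Ai.Mat

/-! Forms that represent the Wronskian up to functions on the base. -/

namespace Pool.Agent.Lib.MP_8865d3_nt.Ai

open MvPolynomial Matrix Height Pool.Agent.Lib.MP_651af7_nt Av Pool.Agent.Lib.MP_8865d3_nt.Lr
open Es (mn)

set_option linter.unusedSectionVars false

noncomputable section

variable {K ι : Type} [Field K] [NumberField K] [Fintype ι] {r n N : ℕ} (A : AV K ι)
  (σ : Fin r → ι → K)

/-- The substitution of the forms `ψ` for the second group of variables. -/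
def pb {κ : Type} (ψ : κ → MvPolynomial (ι ⊕ Fin (n + 1)) K) :
    MvPolynomial (ι ⊕ κ) K →ₐ[K] MvPolynomial (ι ⊕ Fin (n + 1)) K :=
  aeval (Sum.elim (fun a => X (.inl a)) ψ)

theorem pb_inl {κ : Type} (ψ : κ → MvPolynomial (ι ⊕ Fin (n + 1)) K) (c : MvPolynomial ι K) :
    pb ψ (rename Sum.inl c) = rename Sum.inl c := by
  rw [pb, aeval_rename, Sum.elim_comp_inl, ev_inl]

theorem pb_inr {κ : Type} (ψ : κ → MvPolynomial (ι ⊕ Fin (n + 1)) K) (i : κ) :
    pb ψ (X (.inr i)) = ψ i := by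
  rw [pb, aeval_X, Sum.elim_inr]

theorem ev_pb {κ : Type} (ψ : κ → MvPolynomial (ι ⊕ Fin (n + 1)) K) (a : ι → K)
    (t : Fin (n + 1) → K) (f : MvPolynomial (ι ⊕ κ) K) : eval (Sum.elim a t) (pb ψ f) =
      eval (Sum.elim a fun i => eval (Sum.elim a t) (ψ i)) f := by
  rw [← aeval_eq_eval, pb, ← AlgHom.comp_apply, comp_aeval, aeval_eq_eval]
  congr 2
  funext s
  cases s <;> simp

/-- The Wronskian of the parametrisation by the matrix `E` at the coordinates `X (u l)`. -/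
def zz {κ : Type} (E : κ → Fin (n + 1) → MvPolynomial ι K) (u : Fin (n + 1) → κ) (b : ι)
    (S : Fin r ⊕ Fin (n + 1) → κ) : MvPolynomial (ι ⊕ κ) K :=
  (of (Sum.elim (fun i s => ∑ l, rename Sum.inl (dd A σ b i (E (S s) l)) * X (.inr (u l)))
    fun l s => rename Sum.inl (E (S s) l))).det

variable {A σ}

theorem zz_hom {κ : Type} {E : κ → Fin (n + 1) → MvPolynomial ι K} {d : ℕ}
    (hE : ∀ s l, (E s l).IsHomogeneous d) (u : Fin (n + 1) → κ) (b : ι)
    (S : Fin r ⊕ Fin (n + 1) → κ) :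
    (zz A σ E u b S).IsWeightedHomogeneous (bw ι κ) ((r + n + 1) * d + r, r) := by
  have h := det_whom (K := K) (w := bw ι κ) (δ := Sum.elim (fun _ => (d + 1, 1)) fun _ => (d, 0))
    (b := of (Sum.elim (fun i s => ∑ l, rename Sum.inl (dd A σ b i (E (S s) l)) * X (.inr (u l)))
      fun l s => rename Sum.inl (E (S s) l))) (by
      rintro (i | l) s
      · rw [of_apply, Sum.elim_inl]
        refine IsWeightedHomogeneous.sum _ _ _ fun l _ => ?_
        have h1 : (dd A σ b i (E (S s) l)).IsHomogeneous (d + 1) := by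
          rw [dd, ← dP_eq]
          exact dP_hom (w := 1) (δ := 1) (fun a => Bx.vf_hom (A := A) (σ i) b a) (hE _ _)
        exact (rename_inl_hom h1).mul (isWeightedHomogeneous_X K (bw ι κ) (.inr (u l)))
      · exact rename_inl_hom (hE _ _))
  have h2 : ∑ j : Fin r ⊕ Fin (n + 1), (Sum.elim (fun _ => (d + 1, 1)) (fun _ => (d, 0)) j : ℕ × ℕ) =
      ((r + n + 1) * d + r, r) := by
    ext
    · simp
      ring
    · simp
  rwa [h2] at h

theorem zz_key (hσ : A.LieBasis σ) {κ : Type} {E B : κ → Fin (n + 1) → MvPolynomial ι K}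
    {u : Fin (n + 1) → κ} {c : MvPolynomial ι K}
    (h : ∀ s j, ∑ l, E s l * B (u l) j - c * B s j ∈ A.I) (b : ι) (S : Fin (r + n + 1) → κ) :
    pb (fun i => lin (B i)) (zz A σ E u b (S ∘ ee r n)) *
      rename Sum.inl (of fun a => B (u a)).det * ∏ j, X (.inr j) -
      rename Sum.inl (c ^ (r + n + 1)) * wr A σ (fun i => lin (B i)) b S ∈ pr A.I n := by
  let π := Ideal.Quotient.mk (pr A.I n)
  have h1 : ∀ s j, ∑ l, π (rename Sum.inl (E s l)) * π (rename Sum.inl (B (u l) j)) =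
      π (rename Sum.inl c) * π (rename Sum.inl (B s j)) := fun s j => by
    simpa only [map_sub, map_sum, map_mul, sub_eq_zero] using
      Ideal.Quotient.eq_zero_iff_mem.2 ((inl_mem' (n := n)).2 (h s j))
  have h2 : ∀ s, ∑ l, rename Sum.inl (E s l) * lin (B (u l)) - rename Sum.inl c * lin (B s) ∈
      pr A.I n := fun s => by
    rw [← Ideal.Quotient.eq_zero_iff_mem]
    simp only [lin, map_sub, map_sum, map_mul, Finset.mul_sum, ← mul_assoc]
    rw [Finset.sum_comm]
    simp only [← Finset.sum_mul]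
    exact sub_eq_zero.2 (Finset.sum_congr rfl fun j _ => by rw [h1])
  have h3 := det_key (r := r) (E := fun s l => π (rename Sum.inl (E (S (ee r n s)) l)))
    (B := fun s j => π (rename Sum.inl (B (S (ee r n s)) j)))
    (N := of fun a j => π (rename Sum.inl (B (u a) j))) (c := π (rename Sum.inl c))
    (y := fun j => π (X (.inr j)))
    (z := fun i s => π (∑ l, rename Sum.inl (dd A σ b i (E (S (ee r n s)) l)) * lin (B (u l))))
    (d := fun i s => π (lin fun j => dd A σ b i (B (S (ee r n s)) j)))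
    (α := fun i l => π (lin fun j => dd A σ b i (B (u l) j)))
    (γ := fun i => π (rename Sum.inl (dd A σ b i c))) (fun s j => h1 _ j) fun i s => by
      have h4 := vp_tan hσ b (Fin.castAdd n i) _ (h2 (S (ee r n s)))
      have h5 : ∀ c, mkDerivation K (vp A σ n b (Fin.castAdd n i)) (rename Sum.inl c) =
          rename Sum.inl (dd A σ b i c) := fun c => by
        rw [vp, Fin.append_left]
        exact der_inl _ _ c
      rw [dP_eq, ← Ideal.Quotient.eq_zero_iff_mem] at h4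
      simp only [map_sub, map_sum, Derivation.leibniz, vp_lin, h5, smul_eq_mul, map_add, map_mul,
        Finset.sum_add_distrib, sub_eq_zero] at h4
      simp only [map_sum, map_mul]
      rw [lin.eq_1 (B (S _)), map_sum, Finset.sum_mul] at h4
      simp only [map_mul] at h4
      refine Eq.trans ?_ (h4.trans ?_)
      · refine (add_comm _ _).trans ?_
        congr 1 <;> exact Finset.sum_congr rfl fun l _ => mul_comm _ _
      · congr 1
        exact Finset.sum_congr rfl fun l _ => by ring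
  rw [← Ideal.Quotient.eq_zero_iff_mem, wr_lin, zz, AlgHom.map_det, AlgHom.map_det]
  simp only [map_sub, map_mul, RingHom.map_det, map_pow, sub_eq_zero]
  refine (congrArg (· * _) (Eq.trans ?_ h3)).trans ?_
  · congr 2
    ext1 a s
    rcases a with i | l
    · simp [π, pb_inl, pb_inr]
    · simp [π, pb_inl]
  · rw [mul_assoc, mul_comm _ (Ideal.Quotient.mk _ _)]
    congr 3
    ext1 a s
    cases a <;> rfl

variable (A σ) in
/-- The forms `Z` agree with the Wronskians up to functions on the base, and the loss in height is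
small. -/
structure ZD (B : Fin N → Fin (n + 1) → MvPolynomial ι K) {T : Type}
    (Z : T → MvPolynomial (ι ⊕ Fin N) K) (dz : ℕ) : Prop where
  hom : ∀ t, (Z t).IsWeightedHomogeneous (bw ι (Fin N)) (dz, r)
  val : ∀ M : Matrix (Fin (n + 1)) (Fin (n + 1)) (MvPolynomial ι K), M.det ∉ A.I → ∀ t,
    Z t = 0 ∨ ∃ c₁ c₂ b S, c₁ ∉ A.I ∧ pb (fun i => lin (B i ᵥ* M)) (Z t) * rename Sum.inl c₁ *
      ∏ j, X (.inr j) - rename Sum.inl c₂ * wr A σ (fun i => lin (B i ᵥ* M)) b S ∈ pr A.I n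
  ht : ∀ ε : ℝ, 0 < ε → ∃ (Θ : MvPolynomial ι K) (s : ℕ) (C : ℝ), Θ.IsHomogeneous s ∧ Θ ∉ A.I ∧
    ∀ (a : ι → K) (t : Fin (n + 1) → K), a ≠ 0 → (∀ P ∈ A.I, eval a P = 0) → eval a Θ ≠ 0 →
      (∀ j, t j ≠ 0) → (fun q : ι × (Fin (r + n + 1) → Fin N) =>
        eval (Sum.elim a t) (wr A σ (fun i => lin (B i)) q.1 q.2)) ≠ 0 →
      (fun τ => eval (Sum.elim a t) (pb (fun i => lin (B i)) (Z τ))) ≠ 0 ∧
      logHeight (fun q : ι × (Fin (r + n + 1) → Fin N) =>
        eval (Sum.elim a t) (wr A σ (fun i => lin (B i)) q.1 q.2)) + dz * logHeight a ≤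
        logHeight (fun τ => eval (Sum.elim a t) (pb (fun i => lin (B i)) (Z τ))) +
          logHeight (mn ((of B).map (eval a))) + (r + ε) * logHeight a + C

variable {B : Fin N → Fin (n + 1) → MvPolynomial ι K} {b : ℕ}

theorem det_vecMul (B : Fin N → Fin (n + 1) → MvPolynomial ι K) (u : Fin (n + 1) → Fin N)
    (M : Matrix (Fin (n + 1)) (Fin (n + 1)) (MvPolynomial ι K)) :
    (of fun a => B (u a) ᵥ* M).det = mn (of B) u * M.det := by
  rw [mn, ← det_mul]
  rfl

theorem ev_inl' (a : ι → K) (t : Fin (n + 1) → K) (c : MvPolynomial ι K) :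
    eval (Sum.elim a t) (rename Sum.inl c) = eval a c := by
  rw [eval_rename, Sum.elim_comp_inl]

theorem ev_pr {a : ι → K} (ha : ∀ P ∈ A.I, eval a P = 0) (t : Fin (n + 1) → K)
    {P : MvPolynomial (ι ⊕ Fin (n + 1)) K} (h : P ∈ pr A.I n) : eval (Sum.elim a t) P = 0 :=
  pr_zero (R := K) ha t P h

theorem zd_zero {σ : Fin 0 → ι → K} (hp : ∃ u, mn (of B) u ∉ A.I) :
    ZD A σ B (fun _ : Unit => 1) 0 := by
  have h1 : ∀ (B : Fin N → Fin (n + 1) → MvPolynomial ι K) b S, wr A σ (fun i => lin (B i)) b S =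
      rename Sum.inl (of fun a => B (S (ee 0 n (.inr a)))).det * ∏ j, X (.inr j) := fun B b S => by
    rw [wr_lin, mul_comm, ← det_submatrix_equiv_self (Equiv.emptySum (Fin 0) (Fin (n + 1))).symm,
      ← det_transpose, AlgHom.map_det]
    rfl
  obtain ⟨u, hu⟩ := hp
  refine ⟨fun _ => isWeightedHomogeneous_one _ _, fun M hM _ => .inr ⟨_, 1, A.ao,
    Sum.elim Fin.elim0 u ∘ (ee 0 n).symm, fun h => (A.isPrime.mem_or_mem h).elim hu hM, ?_⟩,
    fun ε hε => ⟨1, 0, 0, isHomogeneous_one _ _, (Ideal.ne_top_iff_one _).1 A.isPrime.ne_top,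
      fun a t _ _ _ ht _ => ⟨Function.ne_iff.2 ⟨(), by simp⟩, ?_⟩⟩⟩
  · simp [h1, ← det_vecMul]
  · have h2 : (fun q : ι × (Fin (0 + n + 1) → Fin N) =>
        eval (Sum.elim a t) (wr A σ (fun i => lin (B i)) q.1 q.2)) = (∏ j, t j) •
          (mn ((of B).map (eval a)) ∘ fun q j => q.2 (ee 0 n (.inr j))) := by
      funext q
      rw [h1, map_mul, ev_inl', mul_comm]
      simp only [map_prod, eval_X, Sum.elim_inr, Pi.smul_apply, Function.comp_apply, Es.mn_map]
      rfl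
    rw [h2, logHeight_smul_eq_logHeight _ (Finset.prod_ne_zero_iff.2 fun j _ => ht j)]
    have h3 := logHeight_comp_le (fun (q : ι × (Fin (0 + n + 1) → Fin N)) j =>
      q.2 (ee 0 n (.inr j))) (mn ((of B).map (eval a)))
    have h4 := logHeight_nonneg fun _ : Unit =>
      eval (Sum.elim a t) (pb (fun i => lin (B i)) (1 : MvPolynomial (ι ⊕ Fin N) K))
    have h5 := mul_nonneg hε.le (logHeight_nonneg a)
    simp only [Nat.cast_zero, zero_mul, zero_add]
    linarith

theorem star {Ψ : (Fin (n + 1) → Fin N) → MvPolynomial ι K} {u₀ : Fin (n + 1) → Fin N}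
    (h0 : mn (of B) u₀ ∉ A.I) (h : ∀ u u', Ψ u * mn (of B) u' - Ψ u' * mn (of B) u ∈ A.I)
    (M : Matrix (Fin (n + 1)) (Fin (n + 1)) (MvPolynomial ι K)) (u : Fin (n + 1) → Fin N)
    (s : Fin N) (j : Fin (n + 1)) :
    ∑ l, Ψ (Function.update u l s) * (B (u l) ᵥ* M) j - Ψ u * (B s ᵥ* M) j ∈ A.I := by
  have h1 : ∀ j, ∑ l, Ψ (Function.update u l s) * B (u l) j - Ψ u * B s j ∈ A.I := fun j => by
    refine (A.isPrime.mem_or_mem (x := mn (of B) u₀) ?_).resolve_left h0
    have h2 : ∑ l, mn (of B) (Function.update u l s) * B (u l) j = mn (of B) u * B s j :=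
      cramer_row B u s j
    have h3 := A.I.sub_mem (A.I.sum_mem fun l (_ : l ∈ Finset.univ) =>
      A.I.mul_mem_right (B (u l) j) (h (Function.update u l s) u₀))
      (A.I.mul_mem_right (B s j) (h u u₀))
    simp only [sub_mul, Finset.sum_sub_distrib, mul_assoc, ← Finset.mul_sum, h2] at h3
    simp only [mul_sub, Finset.mul_sum, mul_left_comm (mn (of B) u₀)]
    simpa only [sub_sub_sub_cancel_right] using h3
  have h2 := A.I.sum_mem fun i (_ : i ∈ Finset.univ) => A.I.mul_mem_right (M i j) (h1 i)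
  simp only [sub_mul, Finset.sum_sub_distrib, Finset.sum_mul, mul_assoc] at h2
  rw [Finset.sum_comm] at h2
  simpa only [vecMul, dotProduct, Finset.mul_sum] using h2

theorem exists_zd (hσ : A.LieBasis σ) (hB : ∀ i j, (B i j).IsHomogeneous b)
    (hp : ∃ u, mn (of B) u ∉ A.I) : ∃ (T : Type) (_ : Fintype T)
      (Z : T → MvPolynomial (ι ⊕ Fin N) K) (dz : ℕ), ZD A σ B Z dz := by
  classical
  rcases Nat.eq_zero_or_pos r with rfl | hr
  · exact ⟨_, inferInstance, _, _, zd_zero hp⟩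
  obtain ⟨T, _, d, Ψ, hΨ, hc⟩ := Bx.exists_rep hσ hr (ψ := mn (of B))
    (fun u => det_whom (w := 1) (δ := fun _ => b) fun j a => hB (u j) a) hp
  obtain ⟨u₀, h0⟩ := hp
  let Z : (T × (Fin (n + 1) → Fin N)) × ι × (Fin (r + n + 1) → Fin N) →
      MvPolynomial (ι ⊕ Fin N) K := fun τ => if mn (of B) τ.1.2 ∈ A.I then 0 else
    zz A σ (fun s l => Ψ τ.1.1 (Function.update τ.1.2 l s)) τ.1.2 τ.2.1 (τ.2.2 ∘ ee r n)
  have key : ∀ M τ, pb (fun i => lin (B i ᵥ* M)) (Z τ) *
      rename Sum.inl (mn (of B) τ.1.2 * M.det) * ∏ j, X (.inr j) -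
      rename Sum.inl (Ψ τ.1.1 τ.1.2 ^ (r + n + 1)) *
        wr A σ (fun i => lin (B i ᵥ* M)) τ.2.1 τ.2.2 ∈ pr A.I n := fun M τ => by
    simp only [Z]
    split_ifs with h
    · rw [map_zero, zero_mul, zero_mul, zero_sub, neg_mem_iff]
      refine Ideal.mul_mem_right _ _ (inl_mem'.2 (A.I.pow_mem_of_mem ?_ _ (Nat.succ_pos _)))
      refine (A.isPrime.mem_or_mem ?_).resolve_right h0
      simpa using A.I.add_mem ((hΨ τ.1.1).prp τ.1.2 u₀) (A.I.mul_mem_left (Ψ τ.1.1 u₀) h)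
    · rw [← det_vecMul]
      exact zz_key hσ (B := fun i => B i ᵥ* M)
        (E := fun s l => Ψ τ.1.1 (Function.update τ.1.2 l s))
        (star h0 (hΨ τ.1.1).prp M τ.1.2) τ.2.1 τ.2.2
  refine ⟨_, inferInstance, Z, (r + n + 1) * (d + 1) + r, fun τ => ?_, fun M hM τ => ?_,
    fun ε hε => ?_⟩
  · simp only [Z]
    split_ifs
    exacts [isWeightedHomogeneous_zero _ _ _, zz_hom (fun s l => (hΨ _).hom _) _ _ _]
  · by_cases h : mn (of B) τ.1.2 ∈ A.I
    · exact .inl (if_pos h)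
    · exact .inr ⟨_, _, _, _, fun h' => (A.isPrime.mem_or_mem h').elim h hM, key M τ⟩
  have hD : (0 : ℝ) < r + n + 1 := by positivity
  obtain ⟨Θ, s, C, h1, h2, h3⟩ := A.gcd_part (fun p : T × (Fin (n + 1) → Fin N) => Ψ p.1 p.2)
    (fun p => (hΨ p.1).hom p.2) hc (div_pos hε hD)
  refine ⟨Θ, s, (r + n + 1) * C, h1, h2, fun a t a0 az aΘ ht hw => ?_⟩
  obtain ⟨h4, h5⟩ := h3 a a0 az aΘ
  have h6 : ((fun p : T × (Fin (n + 1) → Fin N) => eval a (Ψ p.1 p.2)) ^ (r + n + 1)) ≠ 0 :=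
    Function.ne_iff.2 ((Function.ne_iff.1 h4).imp fun _ h => pow_ne_zero _ h)
  have h7 := logHeight_fun_mul_eq h6 hw
  have h8 := ne_mul h6 hw
  have h9 : (fun τ : (T × (Fin (n + 1) → Fin N)) × ι × (Fin (r + n + 1) → Fin N) =>
      ((fun p : T × (Fin (n + 1) → Fin N) => eval a (Ψ p.1 p.2)) ^ (r + n + 1)) τ.1 *
        eval (Sum.elim a t) (wr A σ (fun i => lin (B i)) τ.2.1 τ.2.2)) = (∏ j, t j) •
      ((fun q : _ × (Fin (n + 1) → Fin N) => eval (Sum.elim a t) (pb (fun i => lin (B i)) (Z q.1)) *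
        mn ((of B).map (eval a)) q.2) ∘ fun τ => (τ, τ.1.2)) := by
    funext τ
    have h := ev_pr az t (key 1 τ)
    simp only [vecMul_one, det_one, mul_one, map_sub, map_mul, ev_inl', map_pow, map_prod, eval_X,
      Sum.elim_inr, sub_eq_zero] at h
    simp only [Pi.smul_apply, Function.comp_apply, Es.mn_map]
    exact h.symm.trans (mul_comm _ _)
  rw [h9] at h7 h8
  obtain ⟨τ, hτ⟩ := Function.ne_iff.1 (right_ne_zero_of_smul h8)
  have h10 : (fun τ => eval (Sum.elim a t) (pb (fun i => lin (B i)) (Z τ))) ≠ 0 :=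
    Function.ne_iff.2 ⟨τ, left_ne_zero_of_mul hτ⟩
  have h11 := logHeight_fun_mul_eq h10 (y := mn ((of B).map (eval a)))
    (Function.ne_iff.2 ⟨τ.1.2, right_ne_zero_of_mul hτ⟩)
  rw [logHeight_smul_eq_logHeight _ (Finset.prod_ne_zero_iff.2 fun j _ => ht j),
    logHeight_pow] at h7
  have h12 := h7.symm.trans_le ((logHeight_comp_le _ _).trans_eq h11)
  have h13 := mul_le_mul_of_nonneg_left h5 hD.le
  rw [mul_add, ← mul_assoc, mul_div_cancel₀ _ hD.ne'] at h13
  refine ⟨h10, ?_⟩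
  push_cast at h12 h13 ⊢
  linarith

end

end Pool.Agent.Lib.MP_8865d3_nt.Ai
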