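import Mathlib

/-! Linear forms on the generic fibre of the product of a variety and a projective space. -/

namespace Pool.Agent.Lib.MP_8865d3_nt.Ai

open MvPolynomial

noncomputable section

variable {L : Type} [Field L] {ι τ β : Type} [Fintype τ] [Fintype β]

/-- The form `∑ u j (X) * Y j`, linear in the second group of variables. -/
def lin (u : τ → MvPolynomial ι L) : MvPolynomial (ι ⊕ τ) L :=
  ∑ j, rename Sum.inl (u j) * X (.inr j)

/-- Over the function field of the variety of `J`, `p` is a linear combination of the `f l`. -/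
def InSpan (J : Ideal (MvPolynomial ι L)) (f : β → MvPolynomial (ι ⊕ τ) L)
    (p : MvPolynomial (ι ⊕ τ) L) : Prop :=
  ∃ (c : MvPolynomial ι L) (d : ℕ) (q : β → MvPolynomial ι L), c.IsHomogeneous d ∧ c ∉ J ∧
    rename Sum.inl c * p - ∑ l, rename Sum.inl (q l) * f l ∈ J.map (rename Sum.inl)

/-- Over the function field of the variety of `J`, the `f l` span the same space as some products
of `e` linear forms. -/
def Split (J : Ideal (MvPolynomial ι L)) (e : ℕ) (f : β → MvPolynomial (ι ⊕ τ) L) : Prop :=
  ∃ (q s : ℕ) (u : Fin q → τ → MvPolynomial ι L) (d : Fin q → ℕ) (m : Fin s → Fin q → ℕ),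
    (∀ j t, (u j t).IsHomogeneous (d j)) ∧ (∀ i, ∑ j, m i j = e) ∧
    (∀ l, InSpan J (fun i => ∏ j, lin (u j) ^ m i j) (f l)) ∧
    ∀ i, InSpan J f (∏ j, lin (u j) ^ m i j)

end

end Pool.Agent.Lib.MP_8865d3_nt.Ai
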