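import Pool.Agent.Lib.MP_8865d3_nt.Ai.Desc
import Pool.Agent.Lib.MP_651af7_nt.Cu.VModel

/-! The inequality from a log resolution. -/

namespace Pool.Agent.Lib.MP_8865d3_nt.Ai

open MvPolynomial Module NumberField Height Pool.Agent.Lib.MP_651af7_nt Av Bx Ds
open Pool.Agent.Lib.MP_8865d3_nt.Lr

theorem of_res {k K ι β γ μ : Type} [Field k] [NumberField k] [Field K] [Algebra k K] [Fintype ι]
    [Fintype β] [Fintype γ] [Fintype μ] {N n g b e e' : ℕ} {I : Ideal (MvPolynomial (Fin N) k)}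
    (hI : Var I) (hs : Smooth I g) {J : Ideal (MvPolynomial ι (AlgebraicClosure k))}
    (hJ : Abelian J) {B : Fin N → Fin (n + 1) → MvPolynomial ι (AlgebraicClosure k)}
    (hB : ∀ i j, (B i j).IsHomogeneous b)
    (hb : ∃ φ χ, BirP (I.map (map (algebraMap k (AlgebraicClosure k)))) J φ χ fun i => lin (B i))
    {F : β → MvPolynomial (Fin N) k} {G : γ → MvPolynomial (Fin N) k}
    (hF : ∀ l, (F l).IsHomogeneous e) (hG : ∀ l, (G l).IsHomogeneous e')
    (hF' : Split J e fun l => aeval (fun i => lin (B i)) (F l)) {ξ : Fin N → K} {η : μ → K}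
    (hr : LogRes I g F ξ η) (hm : ∀ l, ∀ c : ℚ, 0 < c → c < 1 → InMult g F ξ η c (G l)) {ε : ℝ}
    (hε : 0 < ε) : Concl I g F e G e' ε := by
  rcases isEmpty_or_nonempty β with _ | _
  · exact ⟨1, 0, isHomogeneous_one _ _, fun h => hI.prime.ne_top ((Ideal.eq_top_iff_one _).2
      (by simpa using Ideal.mem_map_of_mem (map (algebraMap k (AlgebraicClosure k))) h)),
      fun S => ⟨0, fun x _ _ _ h => (h (Subsingleton.elim _ _)).elim⟩⟩
  obtain ⟨A, _, co, h1, h2⟩ := hJ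
  obtain ⟨φ, χ, hb⟩ := hb
  exact of_model hI hs h1 (Cu.model h1 h2) hB hb hF hG hF'
    (fun E _ _ ξ' h v hv l => log_val hr (hm l) h v hv) hε

end Pool.Agent.Lib.MP_8865d3_nt.Ai
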