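import Pool.Agent.Lib.MP_8865d3_nt.Ai.Cur

/-! The valuative hypotheses and the conclusion. -/

namespace Pool.Agent.Lib.MP_8865d3_nt.Ai

open MvPolynomial Matrix NumberField Height Module WithZero Pool.Agent.Lib.MP_651af7_nt Av Bx
open Pool.Agent.Lib.MP_8865d3_nt.Lr
open En (hat rowM)

/-- The inequality for all valuations at all generic points. -/
def HV {k κ β γ : Type} [Field k] (I : Ideal (MvPolynomial κ k)) (g : ℕ)
    (F : β → MvPolynomial κ k) (G : γ → MvPolynomial κ k) : Prop :=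
  ∀ (E : Type) [Field E] [Algebra k E] (ξ : κ → E),
    (∀ P d, P.IsHomogeneous d → (aeval ξ P = 0 ↔ P ∈ I)) → ∀ v : Valuation E ℤᵐ⁰,
    (∀ c : k, v (algebraMap k E c) ≤ 1) → ∀ l, VIneq v ξ g F (G l)

/-- The criterion for monomial weights on the generic fibre. -/
def VC {K ι M : Type} [Field K] (J : Ideal (MvPolynomial ι K)) {r q : ℕ}
    (u : Fin q → Fin r → MvPolynomial ι K) (m : M → Fin q → ℕ)
    (f : MvPolynomial (Fin r) (MvPolynomial ι K)) : Prop :=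
  ∀ ρ : Fin r → Fin q ⊕ Fin r, (rowM u ρ).det ∉ J → ∀ (Wt : Fin r → ℝ) (w : Fin q → ℝ) (ν : ℝ),
    (∀ l, 0 ≤ Wt l) → (∃ l, Wt l = 0) →
    (∀ i j l, m i j ≠ 0 → (u j ᵥ* (rowM u ρ).adjugate) l ∉ J → w j ≤ Wt l) →
    (∀ i, ν ≤ ∑ j, m i j * w j) →
    ∀ μ, coeff μ (hat (rowM u ρ) f) ∉ J → ν ≤ Finsupp.weight Wt μ + ∑ l, Wt l

/-- The conclusion. -/
def Concl {k κ β γ : Type} [Field k] [NumberField k] [Fintype κ] (I : Ideal (MvPolynomial κ k))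
    (g : ℕ) (F : β → MvPolynomial κ k) (e : ℕ) (G : γ → MvPolynomial κ k) (e' : ℕ) (ε : ℝ) : Prop :=
  ∃ (Θ : MvPolynomial κ k) (t : ℕ), Θ.IsHomogeneous t ∧ Θ ∉ I ∧
    ∀ S : Finset (FinitePlace k), ∃ C : ℝ, ∀ x : κ → k, x ≠ 0 → (∀ P ∈ I, eval x P = 0) →
      eval x Θ ≠ 0 → (fun l => eval x (F l)) ≠ 0 → (fun l => eval x (G l)) ≠ 0 →
      finrank k (tsp I x) = g + 1 ∧
      ∀ β : Fin (g + 1) → κ → k, LinearIndependent k β → (∀ l, β l ∈ tsp I x) →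
      hK x β + (∑ w : InfinitePlace k, w.mult * (lam w.1 F e x - lam w.1 G e' x) +
        ∑ w ∈ S, (lam w.1 F e x - lam w.1 G e' x)) ≤ ε * logHeight x + C

end Pool.Agent.Lib.MP_8865d3_nt.Ai
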