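import Pool.Agent.Lib.MP_8865d3_nt.Ai.Ifc

/-! Determinant identities for Wronskians of scrolls. -/

namespace Pool.Agent.Lib.MP_8865d3_nt.Ai

open MvPolynomial Matrix Pool.Agent.Lib.MP_651af7_nt Av Bx Pool.Agent.Lib.MP_8865d3_nt.Lr

noncomputable section

section alg

variable {Q κ : Type} [CommRing Q] {r n : ℕ}

theorem det_key {E B : Fin r ⊕ Fin (n + 1) → Fin (n + 1) → Q}
    {N : Matrix (Fin (n + 1)) (Fin (n + 1)) Q} {c : Q} {y : Fin (n + 1) → Q}
    {z d : Fin r → Fin r ⊕ Fin (n + 1) → Q} {α : Fin r → Fin (n + 1) → Q} {γ : Fin r → Q}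
    (h1 : ∀ s j, ∑ l, E s l * N l j = c * B s j)
    (h2 : ∀ i s, z i s + ∑ l, α i l * E s l = c * d i s + ∑ j, γ i * y j * B s j) :
    (of (Sum.elim z fun l s => E s l)).det * N.det =
      c ^ (r + n + 1) * (of (Sum.elim d fun j s => B s j)).det := by
  have h : fromBlocks 1 (of α) 0 Nᵀ * of (Sum.elim z fun l s => E s l) =
      fromBlocks (c • 1) (of fun i j => γ i * y j) 0 (c • 1) *
        of (Sum.elim d fun j s => B s j) := by
    ext (i | j) s
    · simp [mul_apply, Fintype.sum_sum_type, one_apply, h2]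
    · simpa [mul_apply, Fintype.sum_sum_type, one_apply, mul_comm] using h1 s j
  have h3 := congrArg det h
  rw [det_mul, det_mul, det_fromBlocks_zero₂₁, det_fromBlocks_zero₂₁, det_one, one_mul,
    det_transpose, det_smul, det_smul, det_one, det_one, Fintype.card_fin, Fintype.card_fin] at h3
  rw [mul_comm, h3]
  ring

/-- The order of the rows of the Wronskian. -/
def ee (r n : ℕ) : Fin r ⊕ Fin (n + 1) ≃ Fin (r + n + 1) where
  toFun := Sum.elim (fun i => (Fin.castAdd n i).succ) (Fin.cases 0 fun j => (Fin.natAdd r j).succ)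
  invFun := Fin.cases (.inr 0) (Fin.addCases .inl fun j => .inr j.succ)
  left_inv := by
    rintro (i | j)
    · simp
    · refine Fin.cases ?_ (fun j => ?_) j <;> simp
  right_inv := fun s => by
    refine Fin.cases ?_ (fun s => Fin.addCases (fun i => ?_) (fun j => ?_) s) s <;> simp

theorem minors_ee (B : κ → Fin (n + 1) → Q) (y : Fin (n + 1) → Q) (d : Fin r → κ → Q)
    (S : Fin (r + n + 1) → κ) :
    minors (Fin.cons (fun s => ∑ j, B s j * y j)
      (Fin.append d fun (j : Fin n) s => B s j.succ * y j.succ)) S =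
      (∏ j, y j) * (of (Sum.elim (fun i s => d i (S (ee r n s))) fun j s => B (S (ee r n s)) j)).det := by
  let T : Matrix (Fin (n + 1)) (Fin (n + 1)) Q :=
    of (Fin.cons y fun l => Pi.single l.succ (y l.succ))
  have h1 : T.det = ∏ j, y j := by
    rw [det_of_isUpperTriangular]
    · refine Finset.prod_congr rfl fun j _ => ?_
      refine Fin.cases rfl (fun j => ?_) j
      simp [T]
    · intro l j
      refine Fin.cases (fun h => absurd h (by simp)) (fun l h => ?_) l
      simp only [T, of_apply, Fin.cons_succ]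
      exact Pi.single_eq_of_ne (ne_of_lt h) _
  have h2 : (fromBlocks 1 0 0 T : Matrix (Fin r ⊕ Fin (n + 1)) (Fin r ⊕ Fin (n + 1)) Q).det =
      ∏ j, y j := by rw [det_fromBlocks_zero₂₁, det_one, one_mul, h1]
  rw [minors, ← det_submatrix_equiv_self (ee r n), ← h2, ← det_mul]
  congr 1
  ext (i | j) s
  · simp [mul_apply, Fintype.sum_sum_type, one_apply, ee]
  · refine Fin.cases ?_ (fun j => ?_) j
    · simp [mul_apply, Fintype.sum_sum_type, ee, T, mul_comm]
    · simp [mul_apply, Fintype.sum_sum_type, ee, T, mul_comm, Pi.single_apply]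

theorem cramer_row (B : κ → Fin (n + 1) → Q) (u : Fin (n + 1) → κ) (s : κ) (j : Fin (n + 1)) :
    ∑ l, (of fun a => B (Function.update u l s a)).det * B (u l) j =
      (of fun a => B (u a)).det * B s j := by
  have h1 : ∀ l, (of fun a => B (Function.update u l s a)).det =
      (B s ᵥ* (of fun a => B (u a)).adjugate) l := fun l => by
    rw [← mulVec_transpose, adjugate_transpose, ← cramer_eq_adjugate_mulVec, cramer_transpose_apply]
    congr 1
    ext a b
    rw [updateRow_apply, of_apply, Function.update_apply]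
    split_ifs <;> rfl
  have h2 := congrFun (vecMul_vecMul (B s) (of fun a => B (u a)).adjugate (of fun a => B (u a))) j
  rw [adjugate_mul, vecMul_smul, vecMul_one] at h2
  simp only [h1]
  exact h2

end alg

variable {K ι κ : Type} [Field K] {r n : ℕ}

theorem dP_eq {σ : Type} (W : σ → MvPolynomial σ K) (P : MvPolynomial σ K) :
    dP X W P = mkDerivation K W P := by
  induction P using MvPolynomial.induction_on with
  | C a => rw [dP_C, derivation_C]
  | add p q hp hq => rw [dP_add_pol, map_add, hp, hq]
  | mul_X p s hp =>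
    rw [dP_mul_pol, dP_X, hp, Derivation.leibniz, mkDerivation_X, aeval_X_left_apply, aeval_X,
      smul_eq_mul, smul_eq_mul, mul_comm (X s)]

theorem der_inl {τ : Type} (W : ι → MvPolynomial ι K) (W' : τ → MvPolynomial (ι ⊕ τ) K)
    (c : MvPolynomial ι K) : mkDerivation K (Sum.elim (fun a => rename Sum.inl (W a)) W')
      (rename Sum.inl c) = rename Sum.inl (mkDerivation K W c) := by
  induction c using MvPolynomial.induction_on with
  | C a => rw [rename_C, derivation_C, derivation_C, map_zero]
  | add p q hp hq => simp only [map_add, hp, hq]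
  | mul_X p s hp => simp [hp, mkDerivation_X]

theorem det_whom {τ M ρ : Type} [AddCommMonoid M] [Fintype ρ] [DecidableEq ρ] {w : τ → M}
    {b : Matrix ρ ρ (MvPolynomial τ K)} {δ : ρ → M}
    (h : ∀ j a, (b j a).IsWeightedHomogeneous w (δ j)) :
    b.det.IsWeightedHomogeneous w (∑ j, δ j) := by
  rw [← Matrix.det_transpose, Matrix.det_apply']
  refine IsWeightedHomogeneous.sum _ _ _ fun σ _ => ?_
  rw [← zero_add (∑ j, δ j), ← map_intCast (C : K →+* MvPolynomial τ K)]
  exact (isWeightedHomogeneous_C _ _).mul (IsWeightedHomogeneous.prod _ _ _ fun j _ => h j _)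

variable [CharZero K] [Fintype ι] [Fintype κ] (A : AV K ι) (σ : Fin r → ι → K)

/-- The invariant derivations of the base. -/
def dd (b : ι) (i : Fin r) : Derivation K (MvPolynomial ι K) (MvPolynomial ι K) :=
  mkDerivation K (vf A (σ i) b)

/-- The Wronskian divided by the product of the fibre variables. -/
def mw (B : κ → Fin (n + 1) → MvPolynomial ι K) (b : ι) :
    Fin r ⊕ Fin (n + 1) → κ → MvPolynomial (ι ⊕ Fin (n + 1)) K :=
  Sum.elim (fun i s => lin fun j => dd A σ b i (B s j)) fun j s => rename Sum.inl (B s j)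

omit [CharZero K] [Fintype ι] in
theorem vp_lin (b : ι) (i : Fin r) (u : Fin (n + 1) → MvPolynomial ι K) :
    mkDerivation K (vp A σ n b (Fin.castAdd n i)) (lin u) = lin fun j => dd A σ b i (u j) := by
  simp [vp, lin, der_inl, mkDerivation_X, dd, mul_comm]

omit [CharZero K] [Fintype ι] [Fintype κ] in
theorem wr_lin (B : κ → Fin (n + 1) → MvPolynomial ι K) (b : ι) (S : Fin (r + n + 1) → κ) :
    Lr.wr A σ (fun i => lin (B i)) b S =
      (∏ j, X (.inr j)) * (of fun a s => mw A σ B b a (S (ee r n s))).det := by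
  have h := minors_ee (fun s j => rename Sum.inl (B s j)) (fun j => X (.inr j))
    (fun i s => lin fun j => dd A σ b i (B s j)) S
  have h2 : (of fun a s => mw A σ B b a (S (ee r n s))) = of (Sum.elim
      (fun i s => lin fun j => dd A σ b i (B (S (ee r n s)) j))
      fun j s => rename Sum.inl (B (S (ee r n s)) j)) := by
    ext1 a s
    cases a <;> rfl
  rw [h2, ← h, Lr.wr]
  congr 2
  funext i s
  rw [dP_eq]
  refine Fin.addCases (fun i => ?_) (fun j => ?_) i
  · rw [vp_lin, Fin.append_left]
  · have h3 := der_inl (K := K) (0 : ι → MvPolynomial ι K)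
      (Pi.single j.succ (X (.inr j.succ)) : Fin (n + 1) → _)
    have h4 : mkDerivation K (0 : ι → MvPolynomial ι K) = 0 :=
      derivation_ext fun a => mkDerivation_X _ _ _
    simp only [Pi.zero_apply, map_zero, h4, Derivation.zero_apply] at h3
    rw [vp, Fin.append_right, Fin.append_right, lin, map_sum]
    change ∑ l, mkDerivation K (Sum.elim (fun _ => 0) _) _ = _
    simp [h3, mkDerivation_X, Pi.single_apply]

end

end Pool.Agent.Lib.MP_8865d3_nt.Ai
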