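import Pool.Agent.Lib.MP_8865d3_nt.Ai.Zd

/-! The criterion for monomial weights from the inequality for valuations. -/

namespace Pool.Agent.Lib.MP_8865d3_nt.Ai

open MvPolynomial Matrix Pool.Agent.Lib.MP_651af7_nt Av Pool.Agent.Lib.MP_8865d3_nt.Lr
open Es (mn)
open Sv (cur spt ordR spt_finite spt_nonempty mem_map_iff trop_cur_inl val_real)
open En (hat prd rowM hat_prd prd_map low_prd)

set_option linter.unusedSectionVars false

section ord

variable {K ι T : Type} [Field K] {n : ℕ} {J : Ideal (MvPolynomial ι K)}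
  {Γ : T → MvPolynomial (ι ⊕ Fin (n + 1)) K} {W : Fin (n + 1) → ℝ}

theorem wt_eq (μ : Fin (n + 1) →₀ ℕ) : ∑ j, (μ j : ℝ) * W j = Finsupp.weight W μ := by
  simp [Finsupp.weight_eq_sum]

theorem ordR_le [Finite T] {μ : Fin (n + 1) →₀ ℕ} (h : μ ∈ spt J Γ) :
    ordR J Γ W ≤ Finsupp.weight W μ :=
  csInf_le ((spt_finite J Γ).image _).bddBelow ⟨μ, h, wt_eq μ⟩

theorem le_ordR {a : ℝ} (h0 : (spt J Γ).Nonempty) (h : ∀ μ ∈ spt J Γ, a ≤ Finsupp.weight W μ) :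
    a ≤ ordR J Γ W :=
  le_csInf (h0.image _) fun _ ⟨μ, hμ, e⟩ => e ▸ (h μ hμ).trans_eq (wt_eq μ).symm

theorem ordR_nonneg (h0 : (spt J Γ).Nonempty) (h : ∀ l, 0 ≤ W l) : 0 ≤ ordR J Γ W :=
  le_ordR h0 fun μ _ => wt_eq (W := W) μ ▸
    Finset.sum_nonneg fun j _ => mul_nonneg (Nat.cast_nonneg _) (h j)

theorem cur_prod (f : MvPolynomial (ι ⊕ Fin (n + 1)) K) : cur (f * ∏ j, X (.inr j)) =
    cur f * monomial (∑ j, Finsupp.single j 1) 1 := by
  rw [map_mul, map_prod, monomial_sum_one]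
  simp only [cur_inr]
  rfl

theorem wt_one : Finsupp.weight W (∑ j, Finsupp.single j 1) = ∑ j, W j := by
  simp [map_sum, Finsupp.weight_single]

theorem coeff_lin (u : Fin (n + 1) → MvPolynomial ι K) (l : Fin (n + 1)) :
    coeff (Finsupp.single l 1) (cur (lin u)) = u l := by
  simp [cur_lin, coeff_sum, coeff_X, Finsupp.single_left_inj]

theorem exists_col {M : Matrix (Fin (n + 1)) (Fin (n + 1)) (MvPolynomial ι K)} (h : M.det ∉ J)
    (l : Fin (n + 1)) : ∃ a, M a l ∉ J := by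
  by_contra h0
  push Not at h0
  rw [← Ideal.Quotient.eq_zero_iff_mem, RingHom.map_det] at h
  exact h (det_eq_zero_of_column_eq_zero l fun a => Ideal.Quotient.eq_zero_iff_mem.2 (h0 a))

end ord

variable {k L ι β γ T : Type} [Field k] [Field L] [NumberField L] [Algebra k L] [Fintype ι]
  [Fintype β] [Fintype γ] {N n r q s b e e' dz : ℕ} {A : AV L ι} {σ : Fin r → ι → L}
  {I : Ideal (MvPolynomial (Fin N) k)} {B : Fin N → Fin (n + 1) → MvPolynomial ι L}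

theorem val_crit (hσ : A.LieBasis σ) (hI : (I.map (map (algebraMap k L))).IsPrime)
    (hB : ∀ i j, (B i j).IsHomogeneous b) {φ : ι → MvPolynomial (Fin N) L}
    {χ : Fin (n + 1) → MvPolynomial (Fin N) L}
    (hb : Bir (I.map (map (algebraMap k L))) A.I φ χ fun i => lin (B i))
    (hp : ∃ u, mn (of B) u ∉ A.I) {F : β → MvPolynomial (Fin N) k}
    {G : γ → MvPolynomial (Fin N) k} (hF : ∀ l, (F l).IsHomogeneous e)
    (hG : ∀ l, (G l).IsHomogeneous e') (H : HV I (r + n) F G) (hF0 : ∃ l, F l ∉ I)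
    {u : Fin q → Fin (n + 1) → MvPolynomial ι L} {m : Fin s → Fin q → ℕ}
    (hs : ∀ l, InSpan A.I (fun i => ∏ j, lin (u j) ^ m i j) (aeval (fun i => lin (B i)) (F l)))
    {Z : T → MvPolynomial (ι ⊕ Fin N) L} (hZ : ZD A σ B Z dz) (l : γ) (τ : T) :
    VC A.I u (fun i : {i // ∏ j, lin (u j) ^ m i j ∉ pr A.I n} => m i)
      (cur (aeval (fun i => lin (B i)) (G l) * pb (fun i => lin (B i)) (Z τ))) := by
  intro ρ hN Wt w ν h0 h1 hw hν μ hμ
  have hP := pr_prime A.isPrime n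
  obtain ⟨M, hM'⟩ : ∃ M, M = (rowM u ρ).adjugate := ⟨_, rfl⟩
  have hM : M.det ∉ A.I := fun h => hN (A.isPrime.mem_of_pow_mem _ (by rwa [hM', det_adjugate] at h))
  have e0 : ∀ f, hat (rowM u ρ) (cur f) = cur (sb M f) := fun f => by rw [hM', cur_sb]
  have e1 : ∀ P : MvPolynomial (Fin N) k, sb M (aeval (fun i => lin (B i)) P) =
      aeval (fun i => lin (B i ᵥ* M)) P := fun P => by
    simpa only [AlgHom.restrictScalars_apply, sb_lin] using
      comp_aeval_apply (fun i => lin (B i)) ((sb M).restrictScalars k) P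
  have e2 : (sb M).comp (pb fun i => lin (B i)) = pb fun i => lin (B i ᵥ* M) := by
    ext1 a
    rcases a with a | a
    · simp [pb, sb]
    · rw [AlgHom.comp_apply, pb_inr, pb_inr, sb_lin]
  rw [e0, map_mul (sb M), e1, ← AlgHom.comp_apply, e2] at hμ
  rw [← hM'] at hw
  obtain h2 | ⟨c₁, c₂, b₀, S, h2, h3⟩ := hZ.val M hM τ
  · simp [h2] at hμ
  have ker : ∀ (P : MvPolynomial (Fin N) k) d, P.IsHomogeneous d →
      (aeval (fun i => lin (B i ᵥ* M)) P ∈ pr A.I n ↔ P ∈ I) := fun P d hd => by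
    rw [← e1, ← aeval_map_algebraMap L]
    exact ⟨fun h => mem_of_map_mem (not_not.1 fun h' => sb_not_mem M A.isPrime hM
      (psi_hom (fun i => lin_hom (hB i)) (hd.map _)) (hb.pull hI (hd.map _) h') h),
      fun h => sb_mem M (hb.map _ (Ideal.mem_map_of_mem _ h))⟩
  obtain ⟨l₀, hl₀⟩ := h1
  obtain ⟨u₀, hu₀⟩ := hp
  obtain ⟨a₀, ha₀⟩ := exists_col (M := of fun a => B (u₀ a) ᵥ* M) (J := A.I)
    (fun h => (A.isPrime.mem_or_mem (det_vecMul B u₀ M ▸ h)).elim hu₀ hM) l₀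
  have m₄ : Finsupp.single l₀ 1 ∈ spt A.I fun i => lin (B i ᵥ* M) :=
    ⟨u₀ a₀, by rwa [coeff_lin]⟩
  have m₃ : μ + ∑ j, Finsupp.single j 1 ∈ spt A.I
      fun p : γ × ι × Unit × (Fin (r + n + 1) → Fin N) => aeval (fun i => lin (B i ᵥ* M)) (G p.1) *
        wr A σ (fun i => lin (B i ᵥ* M)) p.2.1 p.2.2.2 := ⟨(l, b₀, (), S), fun h => by
    have h4 := (mem_map_iff _ _).1 (Ideal.mul_mem_left _ (aeval (fun i => lin (B i ᵥ* M)) (G l)) h3)
      (μ + ∑ j, Finsupp.single j 1)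
    rw [mul_sub, mul_left_comm _ (rename Sum.inl c₂), ← mul_assoc, ← mul_assoc, map_sub, cur_prod,
      map_mul _ _ (rename Sum.inl c₁), map_mul _ (rename Sum.inl c₂), trop_cur_inl, trop_cur_inl,
      coeff_sub, coeff_mul_monomial, mul_one, mul_comm _ (C c₁), coeff_C_mul, coeff_C_mul] at h4
    exact (A.isPrime.mem_or_mem ((Submodule.sub_mem_iff_left _ (A.I.mul_mem_left c₂ h)).1 h4)).elim
      h2 hμ⟩
  obtain ⟨i₄, n₄⟩ := spt_nonempty.1 ⟨_, m₄⟩
  obtain ⟨l₂, n₂⟩ := hF0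
  have n₁ : (spt A.I fun p : Unit × Fin N => lin (B p.2 ᵥ* M) ^ (r + n + 1)).Nonempty :=
    spt_nonempty.2 ⟨((), i₄), fun h => n₄ (hP.mem_of_pow_mem _ h)⟩
  have n₂' : (spt A.I fun l => aeval (fun i => lin (B i ᵥ* M)) (F l) *
      ∏ j, X (.inr j)).Nonempty := spt_nonempty.2 ⟨l₂, fun h => (hP.mem_or_mem h).elim
    (fun h => n₂ ((ker _ _ (hF l₂)).1 h))
    (Sv.prod_notMem hP _ fun j _ => X_inr_notMem (P := pr A.I n) rfl j)⟩
  have h5 := val_real n₁ n₂' ⟨_, m₃⟩ ⟨_, m₄⟩ e' e (fun lam _ => ord_le (P := pr A.I n) rfl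
    (Ψ := fun _ : Unit => fun i => lin (B i ᵥ* M)) (fun _ i l => by rw [mul_comm, sub_self]; simp)
    (vp_tan hσ) (sg_vp _ lam) hF hG fun v hv l => H _ _ (fun P d hd => by
      rw [← ker P d hd, ← aeval_gp_eq_zero]
      exact (comp_aeval_apply _ ((aeval (gp (pr A.I n)) : _ →ₐ[L] _).restrictScalars k) P).symm ▸
        Iff.rfl) v hv l) Wt h0 ⟨l₀, hl₀⟩
  have h6 := ordR_nonneg n₁ h0
  have h7 := mul_nonneg (Nat.cast_nonneg (α := ℝ) e') (ordR_nonneg ⟨_, m₄⟩ h0)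
  have h8 := ordR_le (W := Wt) m₃
  have h9 := mul_le_mul_of_nonneg_left (ordR_le (W := Wt) m₄) (Nat.cast_nonneg (α := ℝ) e)
  have h10 : ν + ∑ j, Wt j ≤ _ := le_ordR (W := Wt) n₂' fun μ' ⟨l', hl'⟩ => by
    rw [cur_prod, coeff_mul_monomial'] at hl'
    split_ifs at hl' with h11
    swap
    · exact absurd A.I.zero_mem hl'
    obtain ⟨μ₁, rfl⟩ := exists_add_of_le h11
    rw [add_tsub_cancel_left, mul_one] at hl'
    obtain ⟨c, -, q', -, c0, c1⟩ := hs l'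
    have h12 := (mem_map_iff _ _).1 (sb_mem M c1) μ₁
    simp only [map_sub, map_sum, map_mul _ (rename Sum.inl _), sb_inl, trop_cur_inl, e1, coeff_sub,
      coeff_sum, coeff_C_mul] at h12
    obtain ⟨i, hi⟩ : ∃ i, coeff μ₁ (cur (sb M (∏ j, lin (u j) ^ m i j))) ∉ A.I := by
      by_contra h13
      push Not at h13
      exact (A.isPrime.mem_or_mem ((Submodule.sub_mem_iff_left _
        (A.I.sum_mem fun i _ => A.I.mul_mem_left _ (h13 i))).1 h12)).elim c0 hl'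
    have hi' : ∏ j, lin (u j) ^ m i j ∉ pr A.I n := fun h =>
      hi ((mem_map_iff _ _).1 (sb_mem M h) μ₁)
    rw [← e0, cur_prd, hat_prd, ← hM', ← Ideal.Quotient.eq_zero_iff_mem, ← coeff_map,
      prd_map] at hi
    rw [map_add, wt_one, add_comm]
    exact add_le_add_right ((hν ⟨i, hi'⟩).trans (low_prd _ _ _ Wt w (fun j l a1 a2 =>
      hw ⟨i, hi'⟩ j l a1 (mt Ideal.Quotient.eq_zero_iff_mem.2 a2)) μ₁ (mem_support_iff.2 hi))) _
  rw [map_add, wt_one] at h8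
  rw [Finsupp.weight_single, hl₀, smul_zero, mul_zero] at h9
  linarith

end Pool.Agent.Lib.MP_8865d3_nt.Ai
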